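import Mathlib

/-!
Push dynamics on cyclic routes: basic definitions.

Particle `i` moves along a cyclic route with positions `q : ZMod R`; position `q` of particle `i`
is the site `s i q`.  `Free s x` says that the sites of different particles are different.
One step of the push dynamics from `(x, f)` (`f` is the particle moved last): if some other
particle `i` has the site of `f`, then `i` moves one position ahead, otherwise `f` does.
-/

set_option autoImplicit false

namespace Pool.Agent.H72R

open Finset
open scoped Classical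

section Dyn

variable {ι α β : Type} [Fintype ι] [DecidableEq ι] {R : ℕ}

/-- All sites are different. -/
def Free (s : ι → ZMod R → α) (x : ι → ZMod R) : Prop :=
  ∀ i j, i ≠ j → s i (x i) ≠ s j (x j)

/-- All sites of particles other than `y.2` are different. -/
def Semi (s : ι → ZMod R → α) (y : (ι → ZMod R) × ι) : Prop :=
  ∀ i j, i ≠ j → i ≠ y.2 → j ≠ y.2 → s i (y.1 i) ≠ s j (y.1 j)

/-- The particle moved by the next step. -/
noncomputable def mover (s : ι → ZMod R → α) (y : (ι → ZMod R) × ι) : ι :=
  if h : ∃ i, i ≠ y.2 ∧ s i (y.1 i) = s y.2 (y.1 y.2) then h.choose else y.2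

/-- Move particle `w` one position ahead. -/
noncomputable def mv (x : ι → ZMod R) (w : ι) : ι → ZMod R := Function.update x w (x w + 1)

/-- One step of the push dynamics. -/
noncomputable def step (s : ι → ZMod R → α) (y : (ι → ZMod R) × ι) : (ι → ZMod R) × ι :=
  (mv y.1 (mover s y), mover s y)

/-- The number of steps until the next configuration without collision. -/
noncomputable def ret (s : ι → ZMod R → α) (y : (ι → ZMod R) × ι) : ℕ :=
  sInf {n : ℕ | 1 ≤ n ∧ Free s ((step s)^[n] y).1}

/-- A full chain of pushes. -/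
noncomputable def K (s : ι → ZMod R → α) (y : (ι → ZMod R) × ι) : (ι → ZMod R) × ι :=
  (step s)^[ret s y] y

/-- The configuration before choice number `a`, started at `x`, with choices `j`. -/
noncomputable def Xs (s : ι → ZMod R → α) (x : ι → ZMod R) (j : ℕ → ι) : ℕ → (ι → ZMod R)
  | 0 => x
  | a + 1 => (K s (Xs s x j a, j a)).1

/-- Extend finitely many choices to a sequence. -/
noncomputable def ext {M : ℕ} (i0 : ι) (j : Fin M → ι) (a : ℕ) : ι :=
  if h : a < M then j ⟨a, h⟩ else i0

/-- Two particles are adjacent in the configuration `x`: their windows meet. -/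
def Adj (A : ι → ZMod R → Finset β) (x : ι → ZMod R) (i i' : ι) : Prop :=
  ¬ Disjoint (A i (x i)) (A i' (x i'))

/-- The component of `i`. -/
noncomputable def comp (A : ι → ZMod R → Finset β) (x : ι → ZMod R) (i : ι) : Finset ι :=
  univ.filter fun i' => Relation.ReflTransGen (Adj A x) i i'

end Dyn

/-- Good initial configuration and choices: `Nr` rounds of `M0` choices. -/
structure Good {ι α β : Type} [Fintype ι] [DecidableEq ι] {R : ℕ}
    (s : ι → ZMod R → α) (A : ι → ZMod R → Finset β)
    (m h M0 Nr : ℕ) (x : ι → ZMod R) (j : ℕ → ι) : Prop where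
  free : Free s x
  small : ∀ ρ < Nr, ∀ i, (comp A (Xs s x j (ρ * M0)) i).card < m
  few : ∀ ρ < Nr, ∀ i, ((Ico (ρ * M0) ((ρ + 1) * M0)).filter
      fun a => j a ∈ comp A (Xs s x j (ρ * M0)) i).card ≤ h
  moves : ∀ i, 2 * R ≤ ((range (Nr * M0)).filter fun a => j a = i).card

/-- A transcript of the push dynamics with time slots `θ`. -/
structure Transcript {ι α β : Type} [Fintype ι] [DecidableEq ι] {R : ℕ}
    (s : ι → ZMod R → α) (Tch : ι → ZMod R → Finset β) (G Θ : ℕ) where
  /-- positions (number of moves counted from position 0) before event `g` -/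
  P : ℕ → ι → ℕ
  /-- particle moved in event `g` -/
  w : ℕ → ι
  /-- slot of event `g` -/
  θ : ℕ → ℕ
  start : ∀ i, P 0 i < R
  move : ∀ g, P (g + 1) = Function.update (P g) (w g) (P g (w g) + 1)
  final : ∀ i, 2 * R ≤ P G i
  coll : ∀ g < G, ∀ i, i ≠ w g → s i (P (g + 1) i : ZMod R) = s (w g) (P (g + 1) (w g) : ZMod R) →
    g + 1 < G ∧ w (g + 1) = i ∧ θ (g + 1) = θ g + 1
  touch : ∀ g g', g < g' → g' < G → w g ≠ w g' →
    ¬ Disjoint (Tch (w g) (P g (w g) : ZMod R)) (Tch (w g') (P g' (w g') : ZMod R)) → θ g < θ g'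
  again : ∀ g g', g < g' → g' < G → w g = w g' → θ g + 2 ≤ θ g'
  bound : ∀ g < G, θ g < Θ

/-- A family of paths (as edge sequences) with marked edges. -/
structure Net (k : ℕ) where
  len : Fin k → ℕ
  e : Fin k → ℕ → ℕ
  Z : ℕ → Prop
  inj : ∀ i x y, x < len i → y < len i → e i x = e i y → x = y
  sep : ∀ i x, x + 1 < len i → Z (e i x) → ¬ Z (e i (x + 1))

namespace Net

variable {k : ℕ} (N : Net k)

/-- number of marked edges before edge `x` -/
noncomputable def cnt (i : Fin k) (x : ℕ) : ℕ := ((range x).filter fun y => N.Z (N.e i y)).card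

/-- Position `q` of packet `i`: marked edge number `q` if there is one, else a private site. -/
noncomputable def site (R : ℕ) (i : Fin k) (q : ZMod R) : ℕ ⊕ (Fin k × ZMod R) :=
  if h : ∃ x, x < N.len i ∧ N.Z (N.e i x) ∧ ((N.cnt i x + 1 : ℕ) : ZMod R) = q then
    Sum.inl (N.e i h.choose) else Sum.inr (i, q)

/-- The edges touched by a move of packet `i` from position `q`. -/
noncomputable def Tch (R : ℕ) (i : Fin k) (q : ZMod R) : Finset ℕ :=
  ((range (N.len i)).filter fun x => ((N.cnt i x : ℕ) : ZMod R) = q ∨
    (N.Z (N.e i x) ∧ ((N.cnt i x + 1 : ℕ) : ZMod R) = q)).image (N.e i)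

/-- The edges touched by moves of packet `i` during a round which it starts at position `q`. -/
noncomputable def Win (R H : ℕ) (i : Fin k) (q : ZMod R) : Finset ℕ :=
  ((range (N.len i)).filter fun x => ∃ d ≤ H,
    ((N.cnt i x + 1 : ℕ) : ZMod R) = q + (d : ZMod R)).image (N.e i)

/-- The conditions on the family of paths. -/
structure Ok (r C D : ℕ) : Prop where
  gap : ∀ i x, x + r ≤ N.len i → ∃ y, x ≤ y ∧ y < x + r ∧ N.Z (N.e i y)
  cong : ∀ c : ℕ, (univ.filter fun i : Fin k => ∃ x < N.len i, N.e i x = c).card ≤ C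
  dil : ∀ i, N.len i ≤ D

end Net

end Pool.Agent.H72R
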