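import Pool.Agent.H72R.Kick

/-! A good configuration gives a transcript. -/

set_option autoImplicit false
set_option linter.unusedSectionVars false

namespace Pool.Agent.H72R

open Finset
open scoped Classical

variable {ι α β : Type} [Fintype ι] [DecidableEq ι] {R : ℕ}

section Comp

variable {A : ι → ZMod R → Finset β} {x : ι → ZMod R} {i i' i'' : ι}

theorem Adj.symm (h : Adj A x i i') : Adj A x i' i := fun hd => h hd.symm

theorem mem_comp : i' ∈ comp A x i ↔ Relation.ReflTransGen (Adj A x) i i' := by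
  unfold comp
  rw [mem_filter]
  exact ⟨fun h => h.2, fun h => ⟨mem_univ _, h⟩⟩

theorem mem_comp_self : i ∈ comp A x i := mem_comp.mpr Relation.ReflTransGen.refl

theorem mem_comp_symm (h : i' ∈ comp A x i) : i ∈ comp A x i' := by
  rw [mem_comp] at h ⊢
  induction h with
  | refl => exact Relation.ReflTransGen.refl
  | tail _ hbc ih => exact Relation.ReflTransGen.head (Adj.symm hbc) ih

theorem mem_comp_trans (h : i' ∈ comp A x i) (h' : i'' ∈ comp A x i') : i'' ∈ comp A x i := by
  rw [mem_comp] at h h' ⊢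
  exact h.trans h'

theorem comp_eq (h : i' ∈ comp A x i) : comp A x i' = comp A x i := by
  ext p
  exact ⟨fun hp => mem_comp_trans h hp, fun hp => mem_comp_trans (mem_comp_symm h) hp⟩

theorem mem_comp_of_adj (h : i' ∈ comp A x i) (h' : Adj A x i' i'') : i'' ∈ comp A x i :=
  mem_comp_trans h (mem_comp.mpr (Relation.ReflTransGen.single h'))

end Comp

section Lift

/-- Reduction of lifted positions. -/
noncomputable def rd (R : ℕ) (y : (ι → ℕ) × ι) : (ι → ZMod R) × ι :=
  (fun i => (y.1 i : ZMod R), y.2)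

/-- One step, with lifted positions. -/
noncomputable def stepL (s : ι → ZMod R → α) (y : (ι → ℕ) × ι) : (ι → ℕ) × ι :=
  (Function.update y.1 (mover s (rd R y)) (y.1 (mover s (rd R y)) + 1), mover s (rd R y))

theorem rd_stepL (s : ι → ZMod R → α) (y : (ι → ℕ) × ι) :
    rd R (stepL s y) = step s (rd R y) := by
  unfold step
  have h2 : rd R (stepL s y) =
      (fun i => (((stepL s y).1 i : ℕ) : ZMod R), mover s (rd R y)) := rfl
  rw [h2]
  congr 1
  funext i
  unfold mv stepL
  by_cases h : i = mover s (rd R y)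
  · rw [← h]
    simp only [Function.update_self]
    push_cast
    rfl
  · simp only [Function.update_of_ne h]
    rfl

theorem rd_iter (s : ι → ZMod R → α) (y : (ι → ℕ) × ι) (n : ℕ) :
    rd R ((stepL s)^[n] y) = (step s)^[n] (rd R y) := by
  induction n with
  | zero => rfl
  | succ n ih => rw [Function.iterate_succ_apply', Function.iterate_succ_apply', rd_stepL, ih]

/-- Lifted positions before choice number `a`. -/
noncomputable def Q (s : ι → ZMod R → α) (x : ι → ZMod R) (j : ℕ → ι) : ℕ → ι → ℕ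
  | 0 => fun i => (x i).val
  | a + 1 => ((stepL s)^[ret s (Xs s x j a, j a)] (Q s x j a, j a)).1

/-- State after `n` steps of chain number `a`. -/
noncomputable def Lam (s : ι → ZMod R → α) (x : ι → ZMod R) (j : ℕ → ι) (a n : ℕ) :
    (ι → ℕ) × ι := (stepL s)^[n] (Q s x j a, j a)

variable [NeZero R]

theorem Q_cast (s : ι → ZMod R → α) (x : ι → ZMod R) (j : ℕ → ι) (a : ℕ) :
    (fun i => (Q s x j a i : ZMod R)) = Xs s x j a := by
  induction a with
  | zero =>
    funext i
    exact ZMod.natCast_zmod_val (x i)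
  | succ a ih =>
    have h := rd_iter s (Q s x j a, j a) (ret s (Xs s x j a, j a))
    have h2 : rd R (Q s x j a, j a) = (Xs s x j a, j a) := by
      unfold rd; rw [← ih]
    rw [h2] at h
    have h3 := congrArg Prod.fst h
    exact h3

theorem rd_Q (s : ι → ZMod R → α) (x : ι → ZMod R) (j : ℕ → ι) (a : ℕ) :
    rd R (Q s x j a, j a) = (Xs s x j a, j a) := by
  unfold rd; rw [← Q_cast]

theorem rd_Lam (s : ι → ZMod R → α) (x : ι → ZMod R) (j : ℕ → ι) (a n : ℕ) :
    rd R (Lam s x j a n) = (step s)^[n] (Xs s x j a, j a) := by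
  unfold Lam; rw [rd_iter, rd_Q]

end Lift

section Movers

theorem mover_of_free {s : ι → ZMod R → α} {y : (ι → ZMod R) × ι} (h : Free s y.1) :
    mover s y = y.2 := by
  unfold mover
  rw [dif_neg]
  rintro ⟨i, hi, he⟩
  exact h i y.2 hi he

theorem exists_coll {s : ι → ZMod R → α} {y : (ι → ZMod R) × ι} (hS : Semi s y)
    (h : ¬ Free s y.1) : ∃ i, i ≠ y.2 ∧ s i (y.1 i) = s y.2 (y.1 y.2) := by
  unfold Free at h
  push Not at h
  obtain ⟨i, i', hne, he⟩ := h
  by_cases h1 : i = y.2
  · refine ⟨i', ?_, ?_⟩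
    · rintro rfl; exact hne h1
    · rw [← he, h1]
  · by_cases h2 : i' = y.2
    · exact ⟨i, h1, by rw [he, h2]⟩
    · exact absurd he (hS i i' hne h1 h2)

theorem mover_of_not_free {s : ι → ZMod R → α} {y : (ι → ZMod R) × ι} (hS : Semi s y)
    (h : ¬ Free s y.1) :
    mover s y ≠ y.2 ∧ s (mover s y) (y.1 (mover s y)) = s y.2 (y.1 y.2) := by
  have hc := exists_coll hS h
  unfold mover
  rw [dif_pos hc]
  exact hc.choose_spec

theorem mover_eq {s : ι → ZMod R → α} {y : (ι → ZMod R) × ι} (hS : Semi s y)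
    {i : ι} (hi : i ≠ y.2) (he : s i (y.1 i) = s y.2 (y.1 y.2)) : mover s y = i := by
  have hnf : ¬ Free s y.1 := fun h => h i y.2 hi he
  obtain ⟨h1, h2⟩ := mover_of_not_free hS hnf
  by_contra hne
  exact hS _ _ hne h1 hi (h2.trans he.symm)

end Movers

section ChainLemma

variable [NeZero R]

/-- Invariant of a chain started at `(Q0, j0)` in a round with base positions `base`. -/
structure ChInv (s : ι → ZMod R → α) (A : ι → ZMod R → Finset β) (m : ℕ)
    (yr : ι → ZMod R) (Q0 : ι → ℕ) (j0 : ι) (n : ℕ) (y : (ι → ℕ) × ι) : Prop where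
  mem : y.2 ∈ comp A yr j0
  le : ∀ p, Q0 p ≤ y.1 p
  out : ∀ p, p ∉ comp A yr j0 → y.1 p = Q0 p
  occ : ∀ p, p ≠ y.2 → ∃ p', p' ≠ j0 ∧ s p (y.1 p : ZMod R) = s p' (Q0 p' : ZMod R)
  past : ∀ p d, 1 ≤ d → Q0 p + d < y.1 p →
    ∃ p', p' ≠ j0 ∧ s p ((Q0 p + d : ℕ) : ZMod R) = s p' (Q0 p' : ZMod R)
  few : ∀ p, y.1 p ≤ Q0 p + (m - 1)
  sum : ∑ p, (y.1 p - Q0 p) = n

variable {s : ι → ZMod R → α} {A : ι → ZMod R → Finset β} {m H : ℕ}

theorem few_of_past (hs : ∀ i, Function.Injective (s i))
    (hAS : ∀ i i' q q' (d d' : ℕ), i ≠ i' → d ≤ H → d' ≤ H →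
      s i (q + (d : ZMod R)) = s i' (q' + (d' : ZMod R)) → ¬ Disjoint (A i q) (A i' q'))
    (hHR : H < R)
    {yr : ι → ZMod R} {base Q0 : ι → ℕ} {j0 : ι}
    (hbase : ∀ p, (base p : ZMod R) = yr p)
    (hsmall : (comp A yr j0).card < m)
    (h1 : ∀ p, base p ≤ Q0 p ∧ Q0 p ≤ base p + H)
    (h2 : ∀ p ∈ comp A yr j0, Q0 p + (m - 1) ≤ base p + H)
    {p : ι} (hp : p ∈ comp A yr j0) {t : ℕ} (ht : t ≤ m)
    (hpast : ∀ d, 1 ≤ d → d < t →
      ∃ p', p' ≠ j0 ∧ s p ((Q0 p + d : ℕ) : ZMod R) = s p' (Q0 p' : ZMod R)) :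
    t ≤ m - 1 := by
  by_contra hcon
  have htm : t = m := by omega
  subst htm
  have hmH : t - 1 ≤ H := by
    have := h2 p hp
    have := (h1 p).1
    omega
  -- choose the partner
  choose f hf1 hf2 using fun d : {d : ℕ // d ∈ Ico 1 t} =>
    hpast d.1 (mem_Ico.mp d.2).1 (mem_Ico.mp d.2).2
  have hne : ∀ d, f d ≠ p := by
    intro d hd
    have h3 := hf2 d
    rw [hd] at h3
    have h4 := hs p h3
    have hd1 := (mem_Ico.mp d.2).1
    have hd2 := (mem_Ico.mp d.2).2
    push_cast at h4
    have h5 : ((d.1 : ℕ) : ZMod R) = 0 := by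
      have := congrArg (fun z => z - (Q0 p : ZMod R)) h4
      simpa using this
    rw [ZMod.natCast_eq_zero_iff] at h5
    have := Nat.le_of_dvd (by omega) h5
    omega
  have hmem : ∀ d, f d ∈ (comp A yr j0).erase p := by
    intro d
    rw [mem_erase]
    refine ⟨hne d, ?_⟩
    apply mem_comp_of_adj hp
    unfold Adj
    have hd1 := (mem_Ico.mp d.2).1
    have hd2 := (mem_Ico.mp d.2).2
    have hb := h1 p
    have hb' := h1 (f d)
    have hb2 := h2 p hp
    refine hAS p (f d) (yr p) (yr (f d)) (Q0 p + d.1 - base p) (Q0 (f d) - base (f d))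
      (hne d).symm (by omega) (by omega) ?_
    rw [← hbase, ← hbase]
    have e1 : ((base p : ℕ) : ZMod R) + ((Q0 p + d.1 - base p : ℕ) : ZMod R)
        = ((Q0 p + d.1 : ℕ) : ZMod R) := by
      rw [← Nat.cast_add]; congr 1; omega
    have e2 : ((base (f d) : ℕ) : ZMod R) + ((Q0 (f d) - base (f d) : ℕ) : ZMod R)
        = ((Q0 (f d) : ℕ) : ZMod R) := by
      rw [← Nat.cast_add]; congr 1; omega
    rw [e1, e2]
    exact hf2 d
  have hinj : Function.Injective f := by
    intro d d' hdd
    have h3 := hf2 d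
    have h4 := hf2 d'
    rw [← hdd] at h4
    have h5 := hs p (h3.trans h4.symm)
    have hd1 := (mem_Ico.mp d.2).2
    have hd2 := (mem_Ico.mp d'.2).2
    push_cast at h5
    have h6 : ((d.1 : ℕ) : ZMod R) = ((d'.1 : ℕ) : ZMod R) := by
      exact add_left_cancel h5
    rw [ZMod.natCast_eq_natCast_iff'] at h6
    rw [Nat.mod_eq_of_lt (by omega), Nat.mod_eq_of_lt (by omega)] at h6
    exact Subtype.ext h6
  have hcard : (Ico 1 t).attach.card ≤ ((comp A yr j0).erase p).card :=
    card_le_card_of_injOn f (fun d _ => by exact_mod_cast hmem d) (fun d _ d' _ h => hinj h)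
  rw [card_attach, Nat.card_Ico, card_erase_of_mem hp] at hcard
  have : 1 ≤ (comp A yr j0).card := card_pos.mpr ⟨p, hp⟩
  omega

theorem chain_step (hs : ∀ i, Function.Injective (s i))
    (hAS : ∀ i i' q q' (d d' : ℕ), i ≠ i' → d ≤ H → d' ≤ H →
      s i (q + (d : ZMod R)) = s i' (q' + (d' : ZMod R)) → ¬ Disjoint (A i q) (A i' q'))
    (hHR : H < R)
    {yr : ι → ZMod R} {base Q0 : ι → ℕ} {j0 : ι}
    (hbase : ∀ p, (base p : ZMod R) = yr p)
    (hsmall : (comp A yr j0).card < m)
    (h1 : ∀ p, base p ≤ Q0 p ∧ Q0 p ≤ base p + H)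
    (h2 : ∀ p ∈ comp A yr j0, Q0 p + (m - 1) ≤ base p + H)
    {n : ℕ} {y : (ι → ℕ) × ι} (hy : ChInv s A m yr Q0 j0 n y)
    (hS : Semi s (rd R y)) (hn : (n = 0 ∧ y = (Q0, j0)) ∨ ¬ Free s (rd R y).1) :
    ChInv s A m yr Q0 j0 (n + 1) (stepL s y) := by
  -- the moved particle
  set w := mover s (rd R y) with hw
  have hstep : stepL s y = (Function.update y.1 w (y.1 w + 1), w) := rfl
  -- it is in the component
  have hwmem : w ∈ comp A yr j0 := by
    by_cases hf : Free s (rd R y).1
    · have : w = (rd R y).2 := mover_of_free hf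
      rw [this]; exact hy.mem
    · obtain ⟨hne, he⟩ := mover_of_not_free hS hf
      rw [← hw] at hne he
      have hadj : Adj A yr y.2 w := by
        unfold Adj
        have b1 := h1 w
        have b2 := h1 y.2
        have b3 := h2 y.2 hy.mem
        have b4 := hy.few y.2
        have b5 := hy.le y.2
        have b6 := hy.le w
        have b7 : y.1 w ≤ base w + H := by
          by_cases hwc : w ∈ comp A yr j0
          · have := hy.few w; have := h2 w hwc; omega
          · rw [hy.out w hwc]; omega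
        refine hAS y.2 w (yr y.2) (yr w) (y.1 y.2 - base y.2) (y.1 w - base w)
          hne.symm (by omega) (by omega) ?_
        rw [← hbase, ← hbase]
        have e1 : ((base y.2 : ℕ) : ZMod R) + ((y.1 y.2 - base y.2 : ℕ) : ZMod R)
            = ((y.1 y.2 : ℕ) : ZMod R) := by
          rw [← Nat.cast_add]; congr 1; omega
        have e2 : ((base w : ℕ) : ZMod R) + ((y.1 w - base w : ℕ) : ZMod R)
            = ((y.1 w : ℕ) : ZMod R) := by
          rw [← Nat.cast_add]; congr 1; omega
        rw [e1, e2]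
        exact he.symm
      exact mem_comp_of_adj hy.mem hadj
  -- the new past of w
  have hpast : ∀ d, 1 ≤ d → Q0 w + d < y.1 w + 1 →
      ∃ p', p' ≠ j0 ∧ s w ((Q0 w + d : ℕ) : ZMod R) = s p' (Q0 p' : ZMod R) := by
    intro d hd1 hd2
    rcases Nat.lt_or_ge (Q0 w + d) (y.1 w) with h | h
    · exact hy.past w d hd1 h
    · have he : Q0 w + d = y.1 w := by omega
      rw [he]
      apply hy.occ
      intro hwl
      rcases hn with ⟨_, hn⟩ | hn
      · rw [hn] at he; simp only at he; omega
      · exact (mover_of_not_free hS hn).1 hwl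
  have hfew : y.1 w + 1 ≤ Q0 w + (m - 1) := by
    have h3 := hy.few w
    have h4 := hy.le w
    have hm1 : 1 ≤ m := by omega
    have := few_of_past hs hAS hHR hbase hsmall h1 h2 hwmem (t := y.1 w + 1 - Q0 w)
      (by omega) (fun d hd1 hd2 => hpast d hd1 (by omega))
    omega
  rw [hstep]
  refine ⟨hwmem, ?_, ?_, ?_, ?_, ?_, ?_⟩
  · intro p
    by_cases hp : p = w
    · rw [hp]; simp only [Function.update_self]; have := hy.le w; omega
    · simp only [Function.update_of_ne hp]; exact hy.le p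
  · intro p hp
    have hpw : p ≠ w := fun h => hp (h ▸ hwmem)
    simp only [Function.update_of_ne hpw]
    exact hy.out p hp
  · intro p hp
    simp only at hp
    simp only [Function.update_of_ne hp]
    by_cases hpl : p = y.2
    · by_cases hf : Free s (rd R y).1
      · exact absurd (hpl.trans (mover_of_free hf).symm) hp
      · obtain ⟨hne, he⟩ := mover_of_not_free hS hf
        obtain ⟨p', hp', he'⟩ := hy.occ w hne
        refine ⟨p', hp', ?_⟩
        rw [hpl, ← he']
        exact he.symm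
    · exact hy.occ p hpl
  · intro p d hd1 hd2
    by_cases hp : p = w
    · subst hp
      simp only [Function.update_self] at hd2
      exact hpast d hd1 hd2
    · simp only [Function.update_of_ne hp] at hd2
      exact hy.past p d hd1 hd2
  · intro p
    by_cases hp : p = w
    · rw [hp]; simp only [Function.update_self]; exact hfew
    · simp only [Function.update_of_ne hp]; exact hy.few p
  · have h5 : ∑ p, (Function.update y.1 w (y.1 w + 1) p - Q0 p)
        = ∑ p, ((y.1 p - Q0 p) + if p = w then 1 else 0) := by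
      apply sum_congr rfl
      intro p _
      by_cases hp : p = w
      · rw [hp]; simp only [Function.update_self, if_true]
        have := hy.le w; omega
      · simp only [Function.update_of_ne hp, if_neg hp, add_zero]
    simp only
    rw [h5, sum_add_distrib, hy.sum]
    simp

theorem chain_zero {yr : ι → ZMod R} {Q0 : ι → ℕ} {j0 : ι} :
    ChInv s A m yr Q0 j0 0 (Q0, j0) := by
  refine ⟨mem_comp_self, fun _ => le_rfl, fun _ _ => rfl, ?_, ?_, ?_, ?_⟩
  · intro p hp; exact ⟨p, hp, rfl⟩
  · intro p d hd1 hd2; simp only at hd2; omega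
  · intro p; simp only; omega
  · simp

theorem ChInv.length {yr : ι → ZMod R} {Q0 : ι → ℕ} {j0 : ι} {n : ℕ} {y : (ι → ℕ) × ι}
    (hsmall : (comp A yr j0).card < m) (hy : ChInv s A m yr Q0 j0 n y) :
    n + 1 ≤ m ^ 2 := by
  have h1 : ∑ p, (y.1 p - Q0 p) ≤ ∑ p ∈ comp A yr j0, (m - 1) := by
    rw [← sum_subset (subset_univ (comp A yr j0))]
    · apply sum_le_sum
      intro p _
      have := hy.few p
      omega
    · intro p _ hp
      rw [hy.out p hp]; omega
  rw [hy.sum, sum_const, smul_eq_mul] at h1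
  have h2 : (comp A yr j0).card * (m - 1) ≤ (m - 1) * (m - 1) :=
    Nat.mul_le_mul_right _ (by omega)
  obtain ⟨m', rfl⟩ : ∃ m', m = m' + 1 := ⟨m - 1, by omega⟩
  simp only [Nat.add_sub_cancel] at h1 h2
  nlinarith

end ChainLemma

end Pool.Agent.H72R
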