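import Pool.Agent.H72R.Basic

/-! Counting sequences of choices. -/

set_option autoImplicit false

namespace Pool.Agent.H72R

open Finset
open scoped Classical

variable {ι : Type} [Fintype ι] [DecidableEq ι]

/-- The number of indices below `M` with a property of the chosen particle. -/
theorem card_ext (i0 : ι) (M : ℕ) (j : Fin M → ι) (p : ℕ → ι → Prop)
    [DecidablePred fun a => p a (ext i0 j a)] [DecidablePred fun t : Fin M => p t.1 (j t)] :
    ((range M).filter fun a => p a (ext i0 j a)).card =
      ((univ : Finset (Fin M)).filter fun t => p t.1 (j t)).card := by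
  symm
  apply Finset.card_bij (fun (t : Fin M) _ => t.1)
  · intro t ht
    simp only [mem_filter, mem_univ, true_and] at ht
    simp only [mem_filter, mem_range, t.2, true_and]
    simpa [ext, t.2] using ht
  · intro t _ t' _ h
    exact Fin.ext h
  · intro a ha
    simp only [mem_filter, mem_range] at ha
    refine ⟨⟨a, ha.1⟩, ?_, rfl⟩
    have h2 := ha.2
    simp only [mem_filter, mem_univ, true_and]
    simpa [ext, ha.1] using h2

theorem prod_weight {M : ℕ} (p : Fin M → Prop) [DecidablePred p] (c d : ℕ) :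
    ∏ t, (if p t then c else d) =
      c ^ ((univ : Finset (Fin M)).filter p).card * d ^ (M - ((univ : Finset (Fin M)).filter p).card) := by
  rw [Finset.prod_ite, Finset.prod_const, Finset.prod_const]
  congr 2
  have h := Finset.card_filter_add_card_filter_not (s := (univ : Finset (Fin M))) p
  have hc : (univ : Finset (Fin M)).card = M := by simp
  omega

theorem sum_weight (M : ℕ) (f : Fin M → ι → ℕ) :
    ∑ j : Fin M → ι, ∏ t, f t (j t) = ∏ t, ∑ i, f t i := by
  rw [Finset.prod_univ_sum]
  simp [Fintype.piFinset_univ]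

theorem pow_three (k u M0 : ℕ) (h : M0 * u ≤ k) : (k + u) ^ M0 ≤ 3 * k ^ M0 := by
  rcases Nat.eq_zero_or_pos M0 with h0 | h0
  · subst h0; simp
  have hM : (0 : ℝ) < M0 := by exact_mod_cast h0
  have h1 : (u : ℝ) ≤ k / M0 := by
    rw [le_div_iff₀ hM]
    have : ((M0 * u : ℕ) : ℝ) ≤ k := by exact_mod_cast h
    push_cast at this
    linarith
  have h2 : ((k : ℝ) + u) ≤ k * Real.exp (1 / M0) := by
    have h3 := Real.add_one_le_exp (1 / (M0 : ℝ))
    have hk : (0 : ℝ) ≤ k := by positivity
    calc (k : ℝ) + u ≤ k + k / M0 := by linarith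
      _ = k * (1 / M0 + 1) := by ring
      _ ≤ _ := by gcongr
  have h4 : ((k : ℝ) + u) ^ M0 ≤ 3 * (k : ℝ) ^ M0 := by
    calc ((k : ℝ) + u) ^ M0 ≤ (k * Real.exp (1 / M0)) ^ M0 := by gcongr
      _ = (k : ℝ) ^ M0 * Real.exp 1 := by
          rw [mul_pow, ← Real.exp_nat_mul]
          congr 2
          field_simp
      _ ≤ (k : ℝ) ^ M0 * 3 := by
          have := Real.exp_one_lt_d9
          gcongr
          linarith
      _ = _ := by ring
  exact_mod_cast h4

/-- Few choice sequences hit `I` at least `h` times in a window of length `M0`. -/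
theorem window_count (i0 : ι) (M b M0 h : ℕ) (I : Finset ι) (hb : b + M0 ≤ M)
    (hI : 2 * M0 * I.card ≤ Fintype.card ι) :
    ((univ : Finset (Fin M → ι)).filter fun j =>
      h ≤ ((Ico b (b + M0)).filter fun a => ext i0 j a ∈ I).card).card * 3 ^ h ≤
      3 * Fintype.card ι ^ M := by
  have key : ∀ j : Fin M → ι, ((Ico b (b + M0)).filter fun a => ext i0 j a ∈ I).card =
      ((univ : Finset (Fin M)).filter fun t => (b ≤ t.1 ∧ t.1 < b + M0) ∧ j t ∈ I).card := by
    intro j
    rw [← card_ext i0 M j (fun a i => (b ≤ a ∧ a < b + M0) ∧ i ∈ I)]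
    congr 1
    ext a
    simp only [mem_filter, mem_Ico, mem_range]
    constructor
    · rintro ⟨h1, h2⟩
      exact ⟨by omega, h1, h2⟩
    · rintro ⟨_, h1, h2⟩
      exact ⟨h1, h2⟩
  have hw : ∀ j : Fin M → ι,
      ∏ t : Fin M, (if (b ≤ t.1 ∧ t.1 < b + M0) ∧ j t ∈ I then 3 else 1) =
        3 ^ ((Ico b (b + M0)).filter fun a => ext i0 j a ∈ I).card := by
    intro j
    rw [key j, prod_weight (fun t : Fin M => (b ≤ t.1 ∧ t.1 < b + M0) ∧ j t ∈ I) 3 1]
    simp
  have hsum : ∑ j : Fin M → ι, 3 ^ ((Ico b (b + M0)).filter fun a => ext i0 j a ∈ I).card =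
      ∏ t : Fin M, (if (b ≤ t.1 ∧ t.1 < b + M0) then Fintype.card ι + 2 * I.card
        else Fintype.card ι) := by
    simp_rw [← hw]
    rw [sum_weight M (fun t i => if (b ≤ t.1 ∧ t.1 < b + M0) ∧ i ∈ I then 3 else 1)]
    apply Finset.prod_congr rfl
    intro t _
    by_cases ht : b ≤ t.1 ∧ t.1 < b + M0
    · simp only [ht, true_and, and_self, if_true]
      have : ∀ i : ι, (if i ∈ I then 3 else 1) = 1 + 2 * (if i ∈ I then 1 else 0) := by
        intro i; split_ifs <;> rfl
      simp_rw [this]
      rw [Finset.sum_add_distrib, ← Finset.mul_sum]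
      simp
    · simp [ht]
  have hcard : ((univ : Finset (Fin M)).filter fun t => b ≤ t.1 ∧ t.1 < b + M0).card = M0 := by
    have h1 := card_ext i0 M (fun _ => i0) (fun a _ => b ≤ a ∧ a < b + M0)
    rw [← h1]
    have : ((range M).filter fun a => b ≤ a ∧ a < b + M0) = Ico b (b + M0) := by
      ext a
      simp only [mem_filter, mem_Ico, mem_range]
      constructor
      · rintro ⟨_, h⟩; exact h
      · intro h; exact ⟨by omega, h⟩
    rw [this]
    simp
  calc _ = ∑ j ∈ (univ : Finset (Fin M → ι)).filter fun j =>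
        h ≤ ((Ico b (b + M0)).filter fun a => ext i0 j a ∈ I).card, 3 ^ h := by
        rw [Finset.sum_const, smul_eq_mul]
    _ ≤ ∑ j ∈ (univ : Finset (Fin M → ι)).filter fun j =>
        h ≤ ((Ico b (b + M0)).filter fun a => ext i0 j a ∈ I).card,
        3 ^ ((Ico b (b + M0)).filter fun a => ext i0 j a ∈ I).card := by
        apply Finset.sum_le_sum
        intro j hj
        exact Nat.pow_le_pow_right (by norm_num) (Finset.mem_filter.1 hj).2
    _ ≤ ∑ j : Fin M → ι, 3 ^ ((Ico b (b + M0)).filter fun a => ext i0 j a ∈ I).card :=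
        Finset.sum_le_sum_of_subset (Finset.filter_subset _ _)
    _ = (Fintype.card ι + 2 * I.card) ^ M0 * Fintype.card ι ^ (M - M0) := by
        rw [hsum, prod_weight (fun t : Fin M => b ≤ t.1 ∧ t.1 < b + M0), hcard]
    _ ≤ (3 * Fintype.card ι ^ M0) * Fintype.card ι ^ (M - M0) := by
        gcongr
        exact pow_three _ _ _ (by nlinarith [hI])
    _ = 3 * Fintype.card ι ^ M := by
        rw [mul_assoc, ← pow_add]
        congr 2
        omega

theorem two_mul_pow_le (c : ℕ) : 2 * c ^ (c + 1) ≤ (c + 1) ^ (c + 1) := by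
  have h : ∀ n : ℕ, c ^ (n + 1) + (n + 1) * c ^ n ≤ (c + 1) ^ (n + 1) := by
    intro n
    induction n with
    | zero => simp
    | succ n ih =>
      calc c ^ (n + 1 + 1) + (n + 1 + 1) * c ^ (n + 1)
          = (c ^ (n + 1) + (n + 1) * c ^ n) * c + c ^ (n + 1) := by ring
        _ ≤ (c + 1) ^ (n + 1) * c + (c + 1) ^ (n + 1) := by
            gcongr
            omega
        _ = (c + 1) ^ (n + 1 + 1) := by ring
  have h1 := h c
  calc 2 * c ^ (c + 1) = c ^ (c + 1) + c * c ^ c := by ring
    _ ≤ c ^ (c + 1) + (c + 1) * c ^ c := by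
        gcongr
        omega
    _ ≤ _ := h1

/-- Few choice sequences choose `i` at most `n` times. -/
theorem few_moves (i0 : ι) (M n Q : ℕ) (i : ι) (hM : 2 * Fintype.card ι * Q ≤ M) :
    ((univ : Finset (Fin M → ι)).filter fun j =>
      ((range M).filter fun a => ext i0 j a = i).card ≤ n).card * 2 ^ Q ≤
      2 ^ n * Fintype.card ι ^ M := by
  have hk : 1 ≤ Fintype.card ι := Fintype.card_pos_iff.2 ⟨i0⟩
  set k := Fintype.card ι with hkdef
  have hw : ∀ j : Fin M → ι,
      ∏ t : Fin M, (if j t = i then 1 else 2) =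
        2 ^ (M - ((range M).filter fun a => ext i0 j a = i).card) := by
    intro j
    rw [card_ext i0 M j (fun _ i' => i' = i), prod_weight (fun t : Fin M => j t = i) 1 2]
    simp
  have hsum : ∑ j : Fin M → ι, 2 ^ (M - ((range M).filter fun a => ext i0 j a = i).card) =
      (2 * k - 1) ^ M := by
    simp_rw [← hw]
    rw [sum_weight M (fun _ i' => if i' = i then 1 else 2)]
    have h1 : ∑ i' : ι, (if i' = i then 1 else 2) = 2 * k - 1 := by
      have h2 : ∑ i' : ι, ((if i' = i then 1 else 2) + (if i' = i then 1 else 0)) = 2 * k := by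
        have : ∀ i' : ι, ((if i' = i then 1 else 2) + (if i' = i then 1 else 0)) = 2 := by
          intro i'; split_ifs <;> rfl
        simp_rw [this]
        simp [hkdef, mul_comm]
      rw [Finset.sum_add_distrib] at h2
      simp only [Finset.sum_ite_eq', mem_univ, if_true] at h2
      omega
    rw [h1]
    simp
  have hle : ∀ j : Fin M → ι, ((range M).filter fun a => ext i0 j a = i).card ≤ M := by
    intro j
    calc _ ≤ (range M).card := Finset.card_filter_le _ _
      _ = M := by simp
  have h1 : ((univ : Finset (Fin M → ι)).filter fun j =>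
      ((range M).filter fun a => ext i0 j a = i).card ≤ n).card * 2 ^ M ≤
      2 ^ n * (2 * k - 1) ^ M := by
    rw [← hsum, Finset.mul_sum]
    calc _ = ∑ j ∈ (univ : Finset (Fin M → ι)).filter fun j =>
        ((range M).filter fun a => ext i0 j a = i).card ≤ n, 2 ^ M := by
          rw [Finset.sum_const, smul_eq_mul]
      _ ≤ ∑ j ∈ (univ : Finset (Fin M → ι)).filter fun j =>
        ((range M).filter fun a => ext i0 j a = i).card ≤ n,
          2 ^ n * 2 ^ (M - ((range M).filter fun a => ext i0 j a = i).card) := by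
          apply Finset.sum_le_sum
          intro j hj
          have hj' := (Finset.mem_filter.1 hj).2
          rw [← pow_add]
          apply Nat.pow_le_pow_right (by norm_num)
          have := hle j
          omega
      _ ≤ _ := Finset.sum_le_sum_of_subset (Finset.filter_subset _ _)
  have h2 : (2 * k - 1) ^ M * 2 ^ Q ≤ (2 * k) ^ M := by
    obtain ⟨d, hd⟩ := Nat.exists_eq_add_of_le hM
    have h3 := two_mul_pow_le (2 * k - 1)
    have h4 : 2 * k - 1 + 1 = 2 * k := by omega
    rw [h4] at h3
    calc (2 * k - 1) ^ M * 2 ^ Q = (2 * (2 * k - 1) ^ (2 * k)) ^ Q * (2 * k - 1) ^ d := by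
          rw [hd, pow_add, mul_pow, ← pow_mul]
          ring
      _ ≤ ((2 * k) ^ (2 * k)) ^ Q * (2 * k) ^ d := by
          gcongr
          omega
      _ = (2 * k) ^ M := by
          rw [hd, pow_add, ← pow_mul]
  have h5 : (((univ : Finset (Fin M → ι)).filter fun j =>
      ((range M).filter fun a => ext i0 j a = i).card ≤ n).card * 2 ^ Q) * 2 ^ M ≤
      (2 ^ n * k ^ M) * 2 ^ M := by
    calc _ = (((univ : Finset (Fin M → ι)).filter fun j =>
      ((range M).filter fun a => ext i0 j a = i).card ≤ n).card * 2 ^ M) * 2 ^ Q := by ring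
      _ ≤ (2 ^ n * (2 * k - 1) ^ M) * 2 ^ Q := by gcongr
      _ = 2 ^ n * ((2 * k - 1) ^ M * 2 ^ Q) := by ring
      _ ≤ 2 ^ n * (2 * k) ^ M := by gcongr
      _ = _ := by rw [mul_pow]; ring
  exact Nat.le_of_mul_le_mul_right h5 (by positivity)

end Pool.Agent.H72R
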