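import Mathlib

/-! A two-colouring of the vertices such that among any `r` consecutive edges of a path some edge
goes from colour `false` to colour `true`. -/

set_option autoImplicit false

namespace Pool.Agent.H72R

open Finset

/-- Colourings with prescribed values at `n` distinct points: at most the proportion `2 ^ (-n)`. -/
theorem card_prescribed {V n : ℕ} (a : Fin n → Fin V) (ha : Function.Injective a)
    (b : Fin n → Bool) :
    (univ.filter (fun f : Fin V → Bool => ∀ j, f (a j) = b j)).card * 2 ^ n ≤ 2 ^ V := by
  classical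
  have h1 : (2 : ℕ) ^ n = (univ : Finset (Fin n → Bool)).card := by
    simp
  have h2 : (2 : ℕ) ^ V = (univ : Finset (Fin V → Bool)).card := by
    simp
  rw [h1, h2, ← card_product]
  refine card_le_card_of_injOn
    (fun p => fun w => if h : ∃ j, a j = w then p.2 h.choose else p.1 w) ?_ ?_
  · intro p _
    simp
  · rintro ⟨f, g⟩ hp ⟨f', g'⟩ hp' hEq
    simp only [coe_product, Set.mem_prod, mem_coe, mem_filter, mem_univ, true_and,
      and_true] at hp hp'
    have hch : ∀ j (h : ∃ j', a j' = a j), h.choose = j := fun j h => ha h.choose_spec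
    have hg : g = g' := by
      funext j
      have := congrFun hEq (a j)
      have hex : ∃ j', a j' = a j := ⟨j, rfl⟩
      simp only [dif_pos hex] at this
      rw [hch j hex] at this
      exact this
    have hf : f = f' := by
      funext w
      by_cases h : ∃ j, a j = w
      · obtain ⟨j, rfl⟩ := h
        rw [hp j, hp' j]
      · have := congrFun hEq w
        simp only [dif_neg h] at this
        exact this
    rw [hf, hg]

theorem color {k D r : ℕ} (len : Fin k → ℕ) (v : Fin k → ℕ → ℕ)
    (hv : ∀ i x y, x ≤ len i → y ≤ len i → v i x = v i y → x = y)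
    (hD : ∀ i, len i ≤ D) (hr1 : 1 ≤ r) (hr : k * D * (r + 2) < 2 ^ (r + 1)) :
    ∃ col : ℕ → Bool, ∀ i x, x + r ≤ len i →
      ∃ y, x ≤ y ∧ y < x + r ∧ col (v i y) = false ∧ col (v i (y + 1)) = true := by
  classical
  -- a bound for all vertices
  obtain ⟨V, hV⟩ : ∃ V : ℕ, ∀ i y, y ≤ D → v i y < V := by
    refine ⟨(univ : Finset (Fin k)).sup (fun i => (range (D + 1)).sup (fun y => v i y)) + 1, ?_⟩
    intro i y hy
    have h1 : v i y ≤ (range (D + 1)).sup (fun y => v i y) :=
      le_sup (f := fun y => v i y) (mem_range.2 (by omega))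
    have h2 : (range (D + 1)).sup (fun y => v i y) ≤
        (univ : Finset (Fin k)).sup (fun i => (range (D + 1)).sup (fun y => v i y)) :=
      le_sup (f := fun i => (range (D + 1)).sup (fun y => v i y)) (mem_univ i)
    omega
  -- the bad colourings
  let bad : Fin k × Fin D × Fin (r + 2) → Finset (Fin V → Bool) := fun q =>
    if h : q.2.1.1 + r ≤ len q.1 then
      univ.filter (fun f : Fin V → Bool => ∀ j : Fin (r + 1),
        f ⟨v q.1 (q.2.1.1 + j.1), hV _ _ (by have := hD q.1; have := j.2; omega)⟩ =
          decide (j.1 < q.2.2.1))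
    else ∅
  have hbad : ∀ q, (bad q).card * 2 ^ (r + 1) ≤ 2 ^ V := by
    intro q
    by_cases h : q.2.1.1 + r ≤ len q.1
    · simp only [bad, dif_pos h]
      refine card_prescribed (fun j : Fin (r + 1) =>
        (⟨v q.1 (q.2.1.1 + j.1), hV _ _ (by have := hD q.1; have := j.2; omega)⟩ : Fin V)) ?_
        (fun j => decide (j.1 < q.2.2.1))
      intro j j' hj
      have h1 : v q.1 (q.2.1.1 + j.1) = v q.1 (q.2.1.1 + j'.1) := by
        simpa using hj
      have h2 := hv q.1 _ _ (by have := j.2; omega) (by have := j'.2; omega) h1
      exact Fin.ext (by omega)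
    · simp only [bad, dif_neg h]
      simp
  -- some colouring is not bad
  have hex : ∃ f : Fin V → Bool, ∀ q, f ∉ bad q := by
    by_contra hcon
    push Not at hcon
    have hsub : (univ : Finset (Fin V → Bool)) ⊆ univ.biUnion bad := by
      intro f _
      obtain ⟨q, hq⟩ := hcon f
      exact mem_biUnion.2 ⟨q, mem_univ _, hq⟩
    have h1 : 2 ^ V ≤ ∑ q, (bad q).card := by
      have h3 := (card_le_card hsub).trans card_biUnion_le
      simpa using h3
    have h2 : 2 ^ V * 2 ^ (r + 1) ≤ (k * D * (r + 2)) * 2 ^ V := by
      calc 2 ^ V * 2 ^ (r + 1) ≤ (∑ q, (bad q).card) * 2 ^ (r + 1) :=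
            Nat.mul_le_mul_right _ h1
        _ = ∑ q, (bad q).card * 2 ^ (r + 1) := by rw [sum_mul]
        _ ≤ ∑ _q : Fin k × Fin D × Fin (r + 2), 2 ^ V := sum_le_sum (fun q _ => hbad q)
        _ = (k * D * (r + 2)) * 2 ^ V := by
            simp [mul_assoc]
    have h3 : (k * D * (r + 2)) * 2 ^ V < 2 ^ (r + 1) * 2 ^ V :=
      Nat.mul_lt_mul_of_pos_right hr (by positivity)
    rw [mul_comm] at h2
    omega
  obtain ⟨f, hf⟩ := hex
  refine ⟨fun n => if h : n < V then f ⟨n, h⟩ else false, ?_⟩
  intro i x hx
  by_contra hcon
  push Not at hcon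
  have hlen := hD i
  -- the colours along the path
  let g : ℕ → Bool := fun j => if h : v i (x + j) < V then f ⟨v i (x + j), h⟩ else false
  have hg : ∀ j, j < r → g j = false → g (j + 1) = false := by
    intro j hj h0
    have := hcon (x + j) (by omega) (by omega) h0
    simpa [g, add_assoc] using this
  obtain ⟨t, ht, ht1⟩ : ∃ t, t ≤ r + 1 ∧ ∀ j, j ≤ r → g j = decide (j < t) := by
    by_cases h : ∃ j, j ≤ r ∧ g j = false
    · refine ⟨Nat.find h, ?_, ?_⟩
      · have := (Nat.find_spec h).1
        omega
      · intro j hj
        by_cases hjt : j < Nat.find h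
        · have h1 := Nat.find_min h hjt
          have h2 : g j ≠ false := fun h2 => h1 ⟨hj, h2⟩
          simp only [hjt, decide_true]
          simpa using h2
        · simp only [hjt, decide_false]
          have key : ∀ s, Nat.find h + s ≤ r → g (Nat.find h + s) = false := by
            intro s
            induction s with
            | zero => intro _; exact (Nat.find_spec h).2
            | succ s ih =>
              intro hs
              have := hg (Nat.find h + s) (by omega) (ih (by omega))
              simpa [add_assoc] using this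
          have := key (j - Nat.find h) (by omega)
          rwa [Nat.add_sub_cancel' (by omega)] at this
    · push Not at h
      refine ⟨r + 1, le_refl _, ?_⟩
      intro j hj
      have h2 := h j hj
      have : j < r + 1 := by omega
      simp only [this, decide_true]
      simpa using h2
  refine hf (i, ⟨x, by omega⟩, ⟨t, by omega⟩) ?_
  simp only [bad]
  rw [dif_pos hx]
  simp only [mem_filter, mem_univ, true_and]
  intro j
  have h1 := ht1 j.1 (by have := j.2; omega)
  have h2 : v i (x + j.1) < V := hV _ _ (by have := j.2; omega)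
  simp only [g, dif_pos h2] at h1
  exact h1

end Pool.Agent.H72R
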