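import Pool.Agent.H72R.Kick
import Pool.Agent.H72R.Choices

/-! Existence of a good configuration with good choices. -/

set_option autoImplicit false
set_option linter.unusedSectionVars false

namespace Pool.Agent.H72R

open Finset
open scoped Classical

variable {ι α β : Type} [Fintype ι] [DecidableEq ι] {R : ℕ} [NeZero R]

/-- number of elements with a property -/
noncomputable def cd {X : Type} [Fintype X] (P : X → Prop) : ℕ :=
  ((univ : Finset X).filter P).card

theorem cd_eq {X : Type} [Fintype X] (P : X → Prop) [DecidablePred P] :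
    ((univ : Finset X).filter P).card = cd P := by
  unfold cd
  congr

theorem pair_count {X J : Type} [Fintype X] [Fintype J] (p : X → Prop) (q : X → J → Prop)
    (c : ℕ) (hq : ∀ x, p x → cd (fun j => q x j) ≤ c) :
    cd (fun z : X × J => p z.1 ∧ q z.1 z.2) ≤ cd p * c := by
  rw [← cd_eq, ← cd_eq]
  have h1 : ((univ : Finset (X × J)).filter fun z => p z.1 ∧ q z.1 z.2) =
      ((univ : Finset X).filter p).biUnion fun x =>
        ((univ : Finset J).filter fun j => q x j).image fun j => (x, j) := by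
    ext z
    simp only [mem_filter, mem_univ, true_and, mem_biUnion, mem_image]
    constructor
    · rintro ⟨h1, h2⟩; exact ⟨z.1, h1, z.2, h2, rfl⟩
    · rintro ⟨x, h1, j, h2, rfl⟩; exact ⟨h1, h2⟩
  rw [h1]
  refine card_biUnion_le.trans ?_
  rw [← smul_eq_mul]
  apply sum_le_card_nsmul
  intro x hx
  rw [mem_filter] at hx
  refine card_image_le.trans ?_
  rw [cd_eq]
  exact hq x hx.2

theorem exists_count {J I : Type} [Fintype J] [Fintype I] (q : I → J → Prop) (c : ℕ)
    (hq : ∀ i, cd (fun j => q i j) ≤ c) :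
    cd (fun j => ∃ i, q i j) ≤ Fintype.card I * c := by
  rw [← cd_eq]
  have h1 : ((univ : Finset J).filter fun j => ∃ i, q i j) ⊆
      (univ : Finset I).biUnion fun i => (univ : Finset J).filter fun j => q i j := by
    intro j hj
    simp only [mem_filter, mem_univ, true_and, mem_biUnion] at hj ⊢
    exact hj
  refine (card_le_card h1).trans (card_biUnion_le.trans ?_)
  have h2 := sum_le_card_nsmul (univ : Finset I)
    (fun i => ((univ : Finset J).filter fun j => q i j).card) c
    (fun i _ => by rw [cd_eq]; exact hq i)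
  rw [smul_eq_mul, card_univ] at h2
  exact h2

/-- Union bound.  `hbad` says that at most the fraction `4 k 2^(-m)` of the collision free
configurations has a component with at least `m` particles. -/
theorem exists_good (s : ι → ZMod R → α) (A : ι → ZMod R → Finset β) {m h lam Q : ℕ}
    (hk : 1 ≤ Fintype.card ι) (hm : 1 ≤ m) (hh : 1 ≤ h)
    (hfree : ∃ x, Free s x)
    (hbad : ((univ : Finset (ι → ZMod R)).filter fun x =>
        Free s x ∧ ∃ i, m ≤ (comp A x i).card).card * 2 ^ m ≤
      4 * Fintype.card ι * ((univ : Finset (ι → ZMod R)).filter fun x => Free s x).card)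
    (hlam : Fintype.card ι ≤ 2 ^ lam) (hQ : Q = 2 * R + lam + 2)
    (h1 : 16 * Fintype.card ι * (8 * m * Q) ≤ 2 ^ m)
    (h2 : 4 * Fintype.card ι * (8 * m * Q) ≤ 2 ^ h) :
    ∃ (M0 : ℕ) (x : ι → ZMod R) (j : ℕ → ι), 1 ≤ M0 ∧ Good s A m h M0 (8 * m * Q) x j := by
  obtain ⟨k, hkd⟩ : ∃ k, k = Fintype.card ι := ⟨_, rfl⟩
  obtain ⟨Nr, hNr⟩ : ∃ Nr, Nr = 8 * m * Q := ⟨_, rfl⟩
  obtain ⟨M0, hM0d⟩ : ∃ M0, M0 = max 1 (k / (2 * m)) := ⟨_, rfl⟩
  obtain ⟨M, hM⟩ : ∃ M, M = Nr * M0 := ⟨_, rfl⟩
  rw [← hkd, ← hNr] at h1 h2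
  rw [cd_eq, cd_eq] at hbad
  rw [← hkd] at hk hbad hlam
  rw [← hNr]
  have hM0 : 1 ≤ M0 := by rw [hM0d]; exact le_max_left _ _
  have hM0k : k ≤ 4 * m * M0 := by
    rcases Nat.lt_or_ge k (2 * m) with hc | hc
    · nlinarith
    · have e1 : k / (2 * m) ≤ M0 := by rw [hM0d]; exact le_max_right _ _
      have e2 := Nat.lt_div_mul_add (a := k) (b := 2 * m) (by omega)
      have e3 : k / (2 * m) * (2 * m) ≤ M0 * (2 * m) := Nat.mul_le_mul_right _ e1
      nlinarith
  have hM0' : M0 = 1 ∨ 2 * M0 * m ≤ k := by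
    rcases Nat.lt_or_ge (k / (2 * m)) 1 with hc | hc
    · left; rw [hM0d]; exact max_eq_left hc.le
    · right
      have e1 : M0 = k / (2 * m) := by rw [hM0d]; exact max_eq_right hc
      have e2 := Nat.div_mul_le_self k (2 * m)
      rw [e1]; nlinarith
  obtain ⟨i0⟩ : Nonempty ι := by
    rw [← Fintype.card_pos_iff, ← hkd]; exact hk
  obtain ⟨w, hw⟩ : ∃ w, w = cd (fun x : ι → ZMod R => Free s x) := ⟨_, rfl⟩
  have hwpos : 1 ≤ w := by
    obtain ⟨x, hx⟩ := hfree
    rw [hw, Nat.one_le_iff_ne_zero]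
    unfold cd
    rw [card_ne_zero]
    exact ⟨x, by simp [hx]⟩
  rw [← hw] at hbad
  have hcardJ : Fintype.card (Fin M → ι) = k ^ M := by
    rw [Fintype.card_fun, Fintype.card_fin, ← hkd]
  by_contra hcon
  push Not at hcon
  -- the three kinds of bad events
  let B1 : ℕ → (ι → ZMod R) × (Fin M → ι) → Prop := fun ρ p =>
    ∃ i, m ≤ (comp A (Xs s p.1 (ext i0 p.2) (ρ * M0)) i).card
  let B2 : ℕ → (ι → ZMod R) × (Fin M → ι) → Prop := fun ρ p =>
    ∃ i, (comp A (Xs s p.1 (ext i0 p.2) (ρ * M0)) i).card < m ∧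
      h + 1 ≤ ((Ico (ρ * M0) (ρ * M0 + M0)).filter
        fun a => ext i0 p.2 a ∈ comp A (Xs s p.1 (ext i0 p.2) (ρ * M0)) i).card
  let B3 : (ι → ZMod R) × (Fin M → ι) → Prop := fun p =>
    ∃ i, ((range M).filter fun a => ext i0 p.2 a = i).card ≤ 2 * R
  -- counts
  have hc1 : ∀ ρ < Nr, 4 * Nr * cd (fun p => Free s p.1 ∧ B1 ρ p) ≤ w * k ^ M := by
    intro ρ hρ
    have e1 := transfer s (M := M) i0 (ρ * M0)
      (by rw [hM]; exact Nat.mul_le_mul_right _ hρ.le)
      (fun x _ => ∃ i, m ≤ (comp A x i).card) (fun _ _ _ _ => Iff.rfl)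
    rw [cd_eq, cd_eq] at e1
    have e2 := pair_count (X := ι → ZMod R) (J := Fin M → ι)
      (fun x => Free s x ∧ ∃ i, m ≤ (comp A x i).card) (fun _ _ => True) (k ^ M)
      (fun x _ => by rw [← hcardJ]; exact card_le_univ _)
    have e3 : cd (fun p : (ι → ZMod R) × (Fin M → ι) =>
        Free s p.1 ∧ ∃ i, m ≤ (comp A p.1 i).card) ≤
        cd (fun x : ι → ZMod R => Free s x ∧ ∃ i, m ≤ (comp A x i).card) * k ^ M := by
      refine le_trans (card_le_card ?_) e2
      intro p hp
      simp only [mem_filter, mem_univ, true_and] at hp ⊢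
      exact ⟨hp, trivial⟩
    have e4 := e1.trans e3
    obtain ⟨b, hb⟩ : ∃ b, b = cd (fun x : ι → ZMod R =>
        Free s x ∧ ∃ i, m ≤ (comp A x i).card) := ⟨_, rfl⟩
    rw [← hb] at hbad e4
    have e5 : b * (16 * k * Nr) ≤ 4 * k * w := (Nat.mul_le_mul_left _ h1).trans hbad
    have e6 : 4 * Nr * b ≤ w := by
      have : (4 * k) * (4 * Nr * b) ≤ (4 * k) * w := by
        calc (4 * k) * (4 * Nr * b) = b * (16 * k * Nr) := by ring
          _ ≤ 4 * k * w := e5
      exact Nat.le_of_mul_le_mul_left this (by omega)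
    calc _ ≤ 4 * Nr * (b * k ^ M) := Nat.mul_le_mul_left _ e4
      _ = (4 * Nr * b) * k ^ M := by ring
      _ ≤ w * k ^ M := Nat.mul_le_mul_right _ e6
  have hc2 : ∀ ρ < Nr, 4 * Nr * cd (fun p => Free s p.1 ∧ B2 ρ p) ≤ w * k ^ M := by
    intro ρ hρ
    have hbM : ρ * M0 + M0 ≤ M := by
      rw [hM]
      have : (ρ + 1) * M0 ≤ Nr * M0 := Nat.mul_le_mul_right _ hρ
      rw [Nat.add_mul, Nat.one_mul] at this
      exact this
    have e1 := transfer s (M := M) i0 (ρ * M0) (by omega)
      (fun x j => ∃ i, (comp A x i).card < m ∧ h + 1 ≤ ((Ico (ρ * M0) (ρ * M0 + M0)).filter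
        fun a => j a ∈ comp A x i).card)
      (by
        intro x j j' hjj
        apply exists_congr
        intro i
        have : (Ico (ρ * M0) (ρ * M0 + M0)).filter (fun a => j a ∈ comp A x i) =
            (Ico (ρ * M0) (ρ * M0 + M0)).filter (fun a => j' a ∈ comp A x i) := by
          apply filter_congr
          intro a ha
          rw [hjj a (mem_Ico.mp ha).1]
        rw [this])
    rw [cd_eq, cd_eq] at e1
    have e3 : ∀ (x : ι → ZMod R) (i : ι), cd (fun j : Fin M → ι =>
        (comp A x i).card < m ∧ h + 1 ≤ ((Ico (ρ * M0) (ρ * M0 + M0)).filter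
        fun a => ext i0 j a ∈ comp A x i).card) * 3 ^ h ≤ k ^ M := by
      intro x i
      by_cases hcm : (comp A x i).card < m
      · rcases hM0' with hM01 | hM02
        · have : cd (fun j : Fin M → ι =>
            (comp A x i).card < m ∧ h + 1 ≤ ((Ico (ρ * M0) (ρ * M0 + M0)).filter
            fun a => ext i0 j a ∈ comp A x i).card) = 0 := by
            rw [← cd_eq, card_eq_zero, filter_eq_empty_iff]
            intro j _ hj
            have h3 := hj.2.trans (card_filter_le _ _)
            rw [Nat.card_Ico, hM01] at h3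
            omega
          rw [this]
          simp
        · have e4 := window_count i0 M (ρ * M0) M0 (h + 1) (comp A x i) hbM (by
            rw [← hkd]
            refine le_trans ?_ hM02
            exact Nat.mul_le_mul_left _ hcm.le)
          rw [← hkd, cd_eq] at e4
          have e5 : cd (fun j : Fin M → ι =>
            (comp A x i).card < m ∧ h + 1 ≤ ((Ico (ρ * M0) (ρ * M0 + M0)).filter
            fun a => ext i0 j a ∈ comp A x i).card) ≤
            cd (fun j : Fin M → ι =>
            h + 1 ≤ ((Ico (ρ * M0) (ρ * M0 + M0)).filter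
            fun a => ext i0 j a ∈ comp A x i).card) := by
            apply card_le_card
            intro j hj
            simp only [mem_filter, mem_univ, true_and] at hj ⊢
            exact hj.2
          have e6 := (Nat.mul_le_mul_right (3 ^ (h + 1)) e5).trans e4
          rw [pow_succ] at e6
          have e7 : 3 * (cd (fun j : Fin M → ι =>
            (comp A x i).card < m ∧ h + 1 ≤ ((Ico (ρ * M0) (ρ * M0 + M0)).filter
            fun a => ext i0 j a ∈ comp A x i).card) * 3 ^ h) ≤ 3 * k ^ M := by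
            refine le_trans (le_of_eq ?_) e6
            ring
          omega
      · have : cd (fun j : Fin M → ι =>
            (comp A x i).card < m ∧ h + 1 ≤ ((Ico (ρ * M0) (ρ * M0 + M0)).filter
            fun a => ext i0 j a ∈ comp A x i).card) = 0 := by
          rw [← cd_eq, card_eq_zero, filter_eq_empty_iff]
          intro j _ hj
          exact hcm hj.1
        rw [this]
        simp
    have e4 : ∀ (x : ι → ZMod R) (i : ι), cd (fun j : Fin M → ι =>
        (comp A x i).card < m ∧ h + 1 ≤ ((Ico (ρ * M0) (ρ * M0 + M0)).filter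
        fun a => ext i0 j a ∈ comp A x i).card) ≤ k ^ M / 3 ^ h := by
      intro x i
      rw [Nat.le_div_iff_mul_le (by positivity)]
      exact e3 x i
    have e5 := pair_count (X := ι → ZMod R) (J := Fin M → ι)
      (fun x => Free s x) (fun x j => ∃ i, (comp A x i).card < m ∧
        h + 1 ≤ ((Ico (ρ * M0) (ρ * M0 + M0)).filter
        fun a => ext i0 j a ∈ comp A x i).card) (k * (k ^ M / 3 ^ h))
      (fun x _ => by
        have := exists_count (J := Fin M → ι) (I := ι) (fun i j => (comp A x i).card < m ∧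
          h + 1 ≤ ((Ico (ρ * M0) (ρ * M0 + M0)).filter
          fun a => ext i0 j a ∈ comp A x i).card) (k ^ M / 3 ^ h) (fun i => e4 x i)
        rw [← hkd] at this
        exact this)
    rw [← hw] at e5
    have e6 := e1.trans e5
    have e7 : 4 * Nr * k ≤ 3 ^ h := by
      calc 4 * Nr * k = 4 * k * Nr := by ring
        _ ≤ 2 ^ h := h2
        _ ≤ 3 ^ h := Nat.pow_le_pow_left (by norm_num) h
    calc _ ≤ 4 * Nr * (w * (k * (k ^ M / 3 ^ h))) := Nat.mul_le_mul_left _ e6
      _ = w * ((4 * Nr * k) * (k ^ M / 3 ^ h)) := by ring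
      _ ≤ w * (3 ^ h * (k ^ M / 3 ^ h)) :=
          Nat.mul_le_mul_left _ (Nat.mul_le_mul_right _ e7)
      _ ≤ w * k ^ M := Nat.mul_le_mul_left _ (Nat.mul_div_le _ _)
  have hc3 : 4 * cd (fun p => Free s p.1 ∧ B3 p) ≤ w * k ^ M := by
    have hMQ : 2 * k * Q ≤ M := by
      rw [hM, hNr]
      calc 2 * k * Q ≤ 2 * (4 * m * M0) * Q :=
            Nat.mul_le_mul_right _ (Nat.mul_le_mul_left _ hM0k)
        _ = 8 * m * Q * M0 := by ring
    have e3 : ∀ i : ι, cd (fun j : Fin M → ι =>
        ((range M).filter fun a => ext i0 j a = i).card ≤ 2 * R) ≤ k ^ M / (4 * k) := by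
      intro i
      have e4 := few_moves i0 M (2 * R) Q i (by rw [← hkd]; exact hMQ)
      rw [← hkd, cd_eq] at e4
      rw [Nat.le_div_iff_mul_le (by omega)]
      have e5 : 2 ^ (2 * R) * (4 * k) ≤ 2 ^ Q := by
        rw [hQ, pow_add, pow_add]
        calc 2 ^ (2 * R) * (4 * k) ≤ 2 ^ (2 * R) * (4 * 2 ^ lam) :=
              Nat.mul_le_mul_left _ (Nat.mul_le_mul_left _ hlam)
          _ = 2 ^ (2 * R) * 2 ^ lam * 2 ^ 2 := by ring
      obtain ⟨c, hc⟩ : ∃ c, c = cd (fun j : Fin M → ι =>
        ((range M).filter fun a => ext i0 j a = i).card ≤ 2 * R) := ⟨_, rfl⟩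
      rw [← hc] at e4 ⊢
      have e6 : 2 ^ (2 * R) * (c * (4 * k)) ≤ 2 ^ (2 * R) * k ^ M := by
        calc 2 ^ (2 * R) * (c * (4 * k)) = c * (2 ^ (2 * R) * (4 * k)) := by ring
          _ ≤ c * 2 ^ Q := Nat.mul_le_mul_left _ e5
          _ ≤ 2 ^ (2 * R) * k ^ M := e4
      exact Nat.le_of_mul_le_mul_left e6 (by positivity)
    have e5 := pair_count (X := ι → ZMod R) (J := Fin M → ι)
      (fun x => Free s x)
      (fun _ j => ∃ i, ((range M).filter fun a => ext i0 j a = i).card ≤ 2 * R)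
      (k * (k ^ M / (4 * k)))
      (fun x _ => by
        have := exists_count (J := Fin M → ι) (I := ι) (fun i j =>
          ((range M).filter fun a => ext i0 j a = i).card ≤ 2 * R) (k ^ M / (4 * k)) e3
        rw [← hkd] at this
        exact this)
    rw [← hw] at e5
    calc _ ≤ 4 * (w * (k * (k ^ M / (4 * k)))) := Nat.mul_le_mul_left _ e5
      _ = w * ((4 * k) * (k ^ M / (4 * k))) := by ring
      _ ≤ w * k ^ M := Nat.mul_le_mul_left _ (Nat.mul_div_le _ _)
  -- every pair is bad
  have hall : ((univ : Finset ((ι → ZMod R) × (Fin M → ι))).filter fun p => Free s p.1) ⊆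
      ((range Nr).biUnion fun ρ => (univ.filter fun p => Free s p.1 ∧ B1 ρ p)) ∪
      ((range Nr).biUnion fun ρ => (univ.filter fun p => Free s p.1 ∧ B2 ρ p)) ∪
      (univ.filter fun p => Free s p.1 ∧ B3 p) := by
    intro p hp
    rw [mem_filter] at hp
    have hf := hp.2
    by_contra hnot
    simp only [mem_union, mem_biUnion, mem_range, mem_filter, mem_univ, true_and,
      not_or, not_exists, not_and] at hnot
    obtain ⟨⟨n1, n2⟩, n3⟩ := hnot
    refine hcon M0 p.1 (ext i0 p.2) hM0 ⟨hf, ?_, ?_, ?_⟩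
    · intro ρ hρ i
      by_contra hge
      exact n1 ρ hρ hf ⟨i, not_lt.mp hge⟩
    · intro ρ hρ i
      by_contra hge
      rw [not_le] at hge
      have e1 : (ρ + 1) * M0 = ρ * M0 + M0 := by ring
      rw [e1] at hge
      refine n2 ρ hρ hf ⟨i, ?_, hge⟩
      by_contra hge2
      exact n1 ρ hρ hf ⟨i, not_lt.mp hge2⟩
    · intro i
      by_contra hge
      rw [not_le, ← hM] at hge
      exact n3 hf ⟨i, hge.le⟩
  have hY : w * k ^ M ≤
      ((univ : Finset ((ι → ZMod R) × (Fin M → ι))).filter fun p => Free s p.1).card := by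
    rw [hw, ← hcardJ, ← card_univ]
    unfold cd
    rw [← card_product]
    apply card_le_card
    intro p hp
    rw [mem_product, mem_filter] at hp
    rw [mem_filter]
    exact ⟨mem_univ _, hp.1.2⟩
  have hsum := hY.trans (card_le_card hall)
  have hs1 := card_union_le
    (((range Nr).biUnion fun ρ => (univ.filter fun p => Free s p.1 ∧ B1 ρ p)) ∪
      ((range Nr).biUnion fun ρ => (univ.filter fun p => Free s p.1 ∧ B2 ρ p)))
    (univ.filter fun p : (ι → ZMod R) × (Fin M → ι) => Free s p.1 ∧ B3 p)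
  have hs2 := card_union_le
    ((range Nr).biUnion fun ρ => (univ.filter fun p : (ι → ZMod R) × (Fin M → ι) =>
      Free s p.1 ∧ B1 ρ p))
    ((range Nr).biUnion fun ρ => (univ.filter fun p => Free s p.1 ∧ B2 ρ p))
  rw [cd_eq (fun p : (ι → ZMod R) × (Fin M → ι) => Free s p.1 ∧ B3 p)] at hs1
  have hWpos : 0 < w * k ^ M := Nat.mul_pos hwpos (pow_pos (by omega) M)
  rcases Nat.eq_zero_or_pos Nr with hN0 | hN0
  · -- no rounds
    have z1 : ((range Nr).biUnion fun ρ => (univ.filter
      fun p : (ι → ZMod R) × (Fin M → ι) => Free s p.1 ∧ B1 ρ p)).card = 0 := by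
      rw [hN0]; simp
    have z2 : ((range Nr).biUnion fun ρ => (univ.filter
      fun p : (ι → ZMod R) × (Fin M → ι) => Free s p.1 ∧ B2 ρ p)).card = 0 := by
      rw [hN0]; simp
    omega
  · have hd1 : ∀ ρ ∈ range Nr, (univ.filter fun p : (ι → ZMod R) × (Fin M → ι) =>
        Free s p.1 ∧ B1 ρ p).card ≤ w * k ^ M / (4 * Nr) := by
      intro ρ hρ
      rw [Nat.le_div_iff_mul_le (by omega), Nat.mul_comm, cd_eq]
      exact hc1 ρ (mem_range.mp hρ)
    have hd2 : ∀ ρ ∈ range Nr, (univ.filter fun p : (ι → ZMod R) × (Fin M → ι) =>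
        Free s p.1 ∧ B2 ρ p).card ≤ w * k ^ M / (4 * Nr) := by
      intro ρ hρ
      rw [Nat.le_div_iff_mul_le (by omega), Nat.mul_comm, cd_eq]
      exact hc2 ρ (mem_range.mp hρ)
    have hb1 := card_biUnion_le.trans (sum_le_card_nsmul _ _ _ hd1)
    have hb2 := card_biUnion_le.trans (sum_le_card_nsmul _ _ _ hd2)
    rw [card_range, smul_eq_mul] at hb1 hb2
    have hdiv : 4 * (Nr * (w * k ^ M / (4 * Nr))) ≤ w * k ^ M := by
      calc 4 * (Nr * (w * k ^ M / (4 * Nr))) = (4 * Nr) * (w * k ^ M / (4 * Nr)) := by ring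
        _ ≤ w * k ^ M := Nat.mul_div_le _ _
    omega

end Pool.Agent.H72R
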