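import Pool.Agent.H72R.Basic

/-! The push map is a bijection of the collision free configurations with a marked particle;
transfer of counting from time `a` to time `0`. -/

set_option autoImplicit false

namespace Pool.Agent.H72R

open Finset
open scoped Classical

set_option linter.unusedSectionVars false

variable {ι α : Type} [Fintype ι] [DecidableEq ι] {R : ℕ} [NeZero R]

theorem h72_mv_same (x : ι → ZMod R) (w : ι) : mv x w w = x w + 1 := by
  simp [mv]

theorem h72_mv_ne (x : ι → ZMod R) {w i : ι} (h : i ≠ w) : mv x w i = x i := by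
  simp [mv, Function.update_of_ne h]

theorem h72_mv_inj {x x' : ι → ZMod R} {w : ι} (h : mv x w = mv x' w) : x = x' := by
  funext i
  by_cases hi : i = w
  · subst hi
    have := congrFun h i
    rw [h72_mv_same, h72_mv_same] at this
    exact add_right_cancel this
  · have := congrFun h i
    rwa [h72_mv_ne _ hi, h72_mv_ne _ hi] at this

theorem h72_free_semi {s : ι → ZMod R → α} {y : (ι → ZMod R) × ι} (hy : Free s y.1) :
    Semi s y := fun i j hij _ _ => hy i j hij

theorem h72_mover_pos {s : ι → ZMod R → α} {y : (ι → ZMod R) × ι}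
    (h : ∃ i, i ≠ y.2 ∧ s i (y.1 i) = s y.2 (y.1 y.2)) :
    mover s y ≠ y.2 ∧ s (mover s y) (y.1 (mover s y)) = s y.2 (y.1 y.2) := by
  have : mover s y = h.choose := by simp only [mover]; rw [dif_pos h]
  rw [this]
  exact h.choose_spec

theorem h72_mover_neg {s : ι → ZMod R → α} {y : (ι → ZMod R) × ι}
    (h : ¬ ∃ i, i ≠ y.2 ∧ s i (y.1 i) = s y.2 (y.1 y.2)) :
    mover s y = y.2 := by
  simp only [mover]; rw [dif_neg h]

theorem h72_step_semi {s : ι → ZMod R → α} {y : (ι → ZMod R) × ι} (hy : Semi s y) :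
    Semi s (step s y) := by
  intro i j hij hi hj
  simp only [step] at hi hj ⊢
  rw [h72_mv_ne _ hi, h72_mv_ne _ hj]
  by_cases h : ∃ i, i ≠ y.2 ∧ s i (y.1 i) = s y.2 (y.1 y.2)
  · obtain ⟨h1, h2⟩ := h72_mover_pos h
    by_cases hif : i = y.2
    · have hjf : j ≠ y.2 := fun h' => hij (hif.trans h'.symm)
      intro hc
      apply hy j (mover s y) hj hjf h1
      rw [h2, ← hc, hif]
    · by_cases hjf : j = y.2
      · intro hc
        apply hy i (mover s y) hi hif h1
        rw [h2, hc, hjf]
      · exact hy i j hij hif hjf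
  · rw [h72_mover_neg h] at hi hj
    exact hy i j hij hi hj

theorem h72_step_inj {s : ι → ZMod R → α} {y y' : (ι → ZMod R) × ι} (hy : Semi s y)
    (hy' : Semi s y') (h : step s y = step s y') : y = y' := by
  have hw : mover s y = mover s y' := congrArg Prod.snd h
  have hx : y.1 = y'.1 := by
    have h1 : mv y.1 (mover s y) = mv y'.1 (mover s y') := congrArg Prod.fst h
    rw [← hw] at h1
    exact h72_mv_inj h1
  refine Prod.ext hx ?_
  by_contra hne
  by_cases c : ∃ i, i ≠ y.2 ∧ s i (y.1 i) = s y.2 (y.1 y.2)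
  · obtain ⟨h1, h2⟩ := h72_mover_pos c
    by_cases c' : ∃ i, i ≠ y'.2 ∧ s i (y'.1 i) = s y'.2 (y'.1 y'.2)
    · obtain ⟨h1', h2'⟩ := h72_mover_pos c'
      rw [← hw] at h1' h2'
      rw [← hx] at h2'
      exact hy (mover s y) y'.2 h1' h1 (fun h' => hne h'.symm) h2'
    · have hm := h72_mover_neg c'
      obtain ⟨i, hi, hs⟩ := c
      apply c'
      by_cases hi' : i = y'.2
      · refine ⟨y.2, hne, ?_⟩
        rw [← hx, ← hs, hi']
      · exfalso
        exact hy' i y.2 hi hi' hne (by rw [← hx]; exact hs)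
  · have hm := h72_mover_neg c
    by_cases c' : ∃ i, i ≠ y'.2 ∧ s i (y'.1 i) = s y'.2 (y'.1 y'.2)
    · obtain ⟨i, hi, hs⟩ := c'
      apply c
      by_cases hi' : i = y.2
      · refine ⟨y'.2, fun h' => hne h'.symm, ?_⟩
        rw [hx, ← hs, hi']
      · exfalso
        exact hy i y'.2 hi hi' (fun h' => hne h'.symm) (by rw [hx]; exact hs)
    · have hm' := h72_mover_neg c'
      exact hne (hm.symm.trans (hw.trans hm'))

theorem h72_iter_semi {s : ι → ZMod R → α} {y : (ι → ZMod R) × ι} (hy : Semi s y) (n : ℕ) :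
    Semi s ((step s)^[n] y) := by
  induction n with
  | zero => exact hy
  | succ n ih => rw [Function.iterate_succ_apply']; exact h72_step_semi ih

theorem h72_iter_inj {s : ι → ZMod R → α} (n : ℕ) {y y' : (ι → ZMod R) × ι} (hy : Semi s y)
    (hy' : Semi s y') (h : (step s)^[n] y = (step s)^[n] y') : y = y' := by
  induction n generalizing y y' with
  | zero => exact h
  | succ n ih =>
    rw [Function.iterate_succ_apply, Function.iterate_succ_apply] at h
    exact h72_step_inj hy hy' (ih (h72_step_semi hy) (h72_step_semi hy') h)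

theorem h72_exists_return (s : ι → ZMod R → α) {y : (ι → ZMod R) × ι} (hy : Semi s y) :
    ∃ n, 1 ≤ n ∧ (step s)^[n] y = y := by
  let g : {y : (ι → ZMod R) × ι // Semi s y} → {y : (ι → ZMod R) × ι // Semi s y} :=
    fun z => ⟨step s z.1, h72_step_semi z.2⟩
  have hg : Function.Injective g := by
    intro z z' h
    exact Subtype.ext (h72_step_inj z.2 z'.2 (congrArg Subtype.val h))
  obtain ⟨n, hn, hp⟩ := hg.mem_periodicPts ⟨y, hy⟩
  refine ⟨n, hn, ?_⟩
  have hit : ∀ m (z : {y : (ι → ZMod R) × ι // Semi s y}), ((g^[m]) z).1 = (step s)^[m] z.1 := by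
    intro m
    induction m with
    | zero => intro z; rfl
    | succ m ih => intro z; rw [Function.iterate_succ_apply, ih, Function.iterate_succ_apply]
  have h1 : (g^[n]) ⟨y, hy⟩ = ⟨y, hy⟩ := hp
  have h2 := congrArg Subtype.val h1
  rw [hit] at h2
  exact h2

theorem ret_spec (s : ι → ZMod R → α) {y : (ι → ZMod R) × ι} (hy : Free s y.1) :
    1 ≤ ret s y ∧ Free s ((step s)^[ret s y] y).1 ∧
      ∀ n, 1 ≤ n → n < ret s y → ¬ Free s ((step s)^[n] y).1 := by
  have hne : {n : ℕ | 1 ≤ n ∧ Free s ((step s)^[n] y).1}.Nonempty := by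
    obtain ⟨n, hn, h⟩ := h72_exists_return s (h72_free_semi hy)
    exact ⟨n, hn, by rw [h]; exact hy⟩
  have hmem := Nat.sInf_mem hne
  refine ⟨hmem.1, hmem.2, ?_⟩
  intro n h1 h2 hf
  exact Nat.notMem_of_lt_sInf h2 ⟨h1, hf⟩

theorem iter_semi (s : ι → ZMod R → α) {y : (ι → ZMod R) × ι} (hy : Free s y.1) (n : ℕ) :
    Semi s ((step s)^[n] y) :=
  h72_iter_semi (h72_free_semi hy) n

theorem K_free (s : ι → ZMod R → α) {y : (ι → ZMod R) × ι} (hy : Free s y.1) :
    Free s (K s y).1 := (ret_spec s hy).2.1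

theorem h72_K_inj_aux (s : ι → ZMod R → α) {y y' : (ι → ZMod R) × ι} (hy : Free s y.1)
    (hy' : Free s y'.1) (h : K s y = K s y') (hle : ret s y ≤ ret s y') : y = y' := by
  have h1 := ret_spec s hy
  have h2 := ret_spec s hy'
  simp only [K] at h
  obtain ⟨d, hd⟩ := Nat.exists_eq_add_of_le hle
  rw [hd, Function.iterate_add_apply] at h
  have h3 := h72_iter_inj (ret s y) (h72_free_semi hy) (h72_iter_semi (h72_free_semi hy') d) h
  rcases Nat.eq_zero_or_pos d with h0 | hpos
  · subst h0; exact h3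
  · exfalso
    apply h2.2.2 d hpos (by omega)
    rw [← h3]; exact hy

theorem K_inj (s : ι → ZMod R → α) {y y' : (ι → ZMod R) × ι} (hy : Free s y.1)
    (hy' : Free s y'.1) (h : K s y = K s y') : y = y' := by
  rcases le_total (ret s y) (ret s y') with hle | hle
  · exact h72_K_inj_aux s hy hy' h hle
  · exact (h72_K_inj_aux s hy' hy h.symm hle).symm

theorem Xs_free (s : ι → ZMod R → α) {x : ι → ZMod R} (hx : Free s x) (j : ℕ → ι) (a : ℕ) :
    Free s (Xs s x j a) := by
  induction a with
  | zero => exact hx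
  | succ a ih => exact K_free s (y := (Xs s x j a, j a)) ih

theorem h72_ext_update {M : ℕ} (i0 : ι) (j : Fin M → ι) (c : Fin M) (v : ι) {b : ℕ}
    (hb : b ≠ c.1) : ext i0 (Function.update j c v) b = ext i0 j b := by
  simp only [ext]
  split_ifs with h
  · rw [Function.update_of_ne]
    intro h'
    exact hb (congrArg Fin.val h')
  · rfl

theorem transfer (s : ι → ZMod R → α) {M : ℕ} (i0 : ι) (a : ℕ) (ha : a ≤ M)
    (B : (ι → ZMod R) → (ℕ → ι) → Prop)
    (hB : ∀ x j j', (∀ b, a ≤ b → j b = j' b) → (B x j ↔ B x j')) :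
    ((univ : Finset ((ι → ZMod R) × (Fin M → ι))).filter fun p =>
        Free s p.1 ∧ B (Xs s p.1 (ext i0 p.2) a) (ext i0 p.2)).card ≤
      ((univ : Finset ((ι → ZMod R) × (Fin M → ι))).filter fun p =>
        Free s p.1 ∧ B p.1 (ext i0 p.2)).card := by
  induction a generalizing B with
  | zero => exact le_of_eq rfl
  | succ a ih =>
    have haM : a < M := ha
    have h1 := ih (by omega) (fun x j => B (K s (x, j a)).1 j) (by
      intro x j j' hjj
      rw [hjj a le_rfl]
      exact hB _ j j' (fun b hb => hjj b (by omega)))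
    refine le_trans h1 ?_
    have hext : ∀ j : Fin M → ι, ext i0 j a = j ⟨a, haM⟩ := by
      intro j; simp only [ext]; rw [dif_pos haM]
    refine Finset.card_le_card_of_injOn
      (fun p => ((K s (p.1, p.2 ⟨a, haM⟩)).1,
        Function.update p.2 ⟨a, haM⟩ (K s (p.1, p.2 ⟨a, haM⟩)).2)) ?_ ?_
    · rintro ⟨x, j⟩ hp
      have hp' := (Finset.mem_filter.1 (Finset.mem_coe.1 hp)).2
      simp only [hext] at hp'
      refine Finset.mem_coe.2 (Finset.mem_filter.2 ⟨Finset.mem_univ _, ?_, ?_⟩)
      · exact K_free s (y := (x, j ⟨a, haM⟩)) hp'.1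
      · refine (hB _ _ _ ?_).1 hp'.2
        intro b hb
        rw [h72_ext_update]
        simp only
        omega
    · rintro ⟨x, j⟩ hp ⟨x', j'⟩ hp' h
      have hx := (Finset.mem_filter.1 (Finset.mem_coe.1 hp)).2.1
      have hx' := (Finset.mem_filter.1 (Finset.mem_coe.1 hp')).2.1
      simp only [Prod.mk.injEq] at h
      have h2 : (K s (x, j ⟨a, haM⟩)).2 = (K s (x', j' ⟨a, haM⟩)).2 := by
        have := congrFun h.2 ⟨a, haM⟩
        simpa using this
      have h3 := K_inj s (y := (x, j ⟨a, haM⟩)) (y' := (x', j' ⟨a, haM⟩)) hx hx'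
        (Prod.ext h.1 h2)
      simp only [Prod.mk.injEq] at h3
      refine Prod.ext h3.1 ?_
      funext b
      by_cases hb : b = ⟨a, haM⟩
      · rw [hb]; exact h3.2
      · have := congrFun h.2 b
        rwa [Function.update_of_ne hb, Function.update_of_ne hb] at this

end Pool.Agent.H72R
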