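import Pool.Agent.H72R.Basic

/-! Few collision free configurations have a large component. -/

set_option autoImplicit false

namespace Pool.Agent.H72R

open Finset
open scoped Classical

variable {ι α β : Type} [Fintype ι] [DecidableEq ι] {R : ℕ} [NeZero R]

/-- Neighbours of a list of particles with positions. -/
noncomputable def nbl (A : ι → ZMod R → Finset β) (l : List (ι × ZMod R)) :
    Finset (ι × ZMod R) :=
  univ.filter fun p => ∃ p' ∈ l, ¬ Disjoint (A p'.1 p'.2) (A p.1 p.2)

/-- Lists of length `t + 1`, every element a neighbour of an earlier one. -/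
noncomputable def LL (A : ι → ZMod R → Finset β) : ℕ → Finset (List (ι × ZMod R))
  | 0 => univ.image fun p => [p]
  | t + 1 => (LL A t).biUnion fun l => (nbl A l).image fun p => p :: l

theorem nbl_card (A : ι → ZMod R → Finset β) (Γ : ℕ)
    (hnb : ∀ i q, ((univ : Finset (ι × ZMod R)).filter fun p =>
      ¬ Disjoint (A i q) (A p.1 p.2)).card ≤ Γ) (l : List (ι × ZMod R)) :
    (nbl A l).card ≤ l.length * Γ := by
  induction l with
  | nil => simp [nbl]
  | cons a l ih =>
    have hsub : nbl A (a :: l) ⊆
        (univ.filter fun p => ¬ Disjoint (A a.1 a.2) (A p.1 p.2)) ∪ nbl A l := by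
      intro p hp
      simp only [nbl, mem_filter, mem_univ, true_and, mem_union, List.mem_cons] at hp ⊢
      obtain ⟨p', (rfl | h), h2⟩ := hp
      · exact Or.inl h2
      · exact Or.inr ⟨p', h, h2⟩
    calc (nbl A (a :: l)).card
        ≤ ((univ.filter fun p => ¬ Disjoint (A a.1 a.2) (A p.1 p.2)) ∪ nbl A l).card :=
          card_le_card hsub
      _ ≤ (univ.filter fun p : ι × ZMod R => ¬ Disjoint (A a.1 a.2) (A p.1 p.2)).card +
          (nbl A l).card := card_union_le _ _
      _ ≤ Γ + l.length * Γ := add_le_add (hnb _ _) ih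
      _ = (a :: l).length * Γ := by rw [List.length_cons]; ring

theorem LL_length (A : ι → ZMod R → Finset β) (t : ℕ) :
    ∀ l ∈ LL A t, l.length = t + 1 := by
  induction t with
  | zero =>
    intro l hl
    simp only [LL, mem_image, mem_univ, true_and] at hl
    obtain ⟨p, rfl⟩ := hl
    simp
  | succ t ih =>
    intro l hl
    simp only [LL, mem_biUnion, mem_image] at hl
    obtain ⟨l', hl', p, _, rfl⟩ := hl
    rw [List.length_cons, ih l' hl']

theorem LL_card (A : ι → ZMod R → Finset β) (Γ m : ℕ)
    (hnb : ∀ i q, ((univ : Finset (ι × ZMod R)).filter fun p =>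
      ¬ Disjoint (A i q) (A p.1 p.2)).card ≤ Γ) (t : ℕ) (ht : t + 1 ≤ m) :
    (LL A t).card ≤ Fintype.card ι * R * (m * Γ) ^ t := by
  induction t with
  | zero =>
    calc (LL A 0).card ≤ (univ : Finset (ι × ZMod R)).card := card_image_le
      _ = Fintype.card ι * R * (m * Γ) ^ 0 := by
        rw [card_univ, Fintype.card_prod, ZMod.card, pow_zero, mul_one]
  | succ t ih =>
    have h1 : (LL A (t + 1)).card ≤
        ∑ l ∈ LL A t, ((nbl A l).image fun p => p :: l).card := card_biUnion_le
    have h2 : ∀ l ∈ LL A t, ((nbl A l).image fun p => p :: l).card ≤ m * Γ := by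
      intro l hl
      calc ((nbl A l).image fun p => p :: l).card ≤ (nbl A l).card := card_image_le
        _ ≤ l.length * Γ := nbl_card A Γ hnb l
        _ ≤ m * Γ := Nat.mul_le_mul_right _ (by rw [LL_length A t l hl]; omega)
    calc (LL A (t + 1)).card ≤ ∑ l ∈ LL A t, ((nbl A l).image fun p => p :: l).card := h1
      _ ≤ ∑ _l ∈ LL A t, m * Γ := sum_le_sum h2
      _ = (LL A t).card * (m * Γ) := by rw [sum_const, smul_eq_mul]
      _ ≤ (Fintype.card ι * R * (m * Γ) ^ t) * (m * Γ) :=
        Nat.mul_le_mul_right _ (ih (by omega))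
      _ = Fintype.card ι * R * (m * Γ) ^ (t + 1) := by rw [pow_succ]; ring

/-- A path from inside a set to outside crosses its boundary. -/
theorem boundary_edge {γ : Type} (r : γ → γ → Prop) (S : Set γ) {a b : γ} (ha : a ∈ S)
    (hb : b ∉ S) (h : Relation.ReflTransGen r a b) :
    ∃ c d, c ∈ S ∧ d ∉ S ∧ r c d ∧ Relation.ReflTransGen r a d := by
  induction h with
  | refl => exact absurd ha hb
  | tail h1 h2 ih =>
    rename_i c d
    by_cases hc : c ∈ S
    · exact ⟨c, d, hc, hb, h2, h1.tail h2⟩
    · exact ih hc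

theorem exists_list (A : ι → ZMod R → Finset β) (m : ℕ) (x : ι → ZMod R) (i : ι)
    (hi : m ≤ (comp A x i).card) (t : ℕ) (ht : t + 1 ≤ m) :
    ∃ l ∈ LL A t, (l.map Prod.fst).Nodup ∧ i ∈ l.map Prod.fst ∧
      (∀ p ∈ l, x p.1 = p.2) := by
  induction t with
  | zero =>
    refine ⟨[(i, x i)], ?_, by simp, by simp, by simp⟩
    simp only [LL, mem_image, mem_univ, true_and]
    exact ⟨_, rfl⟩
  | succ t ih =>
    obtain ⟨l, hl, hnd, hil, hx⟩ := ih (by omega)
    have hlen := LL_length A t l hl
    -- a particle of the component outside of the list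
    have hcard : (l.map Prod.fst).toFinset.card = t + 1 := by
      rw [List.toFinset_card_of_nodup hnd, List.length_map, hlen]
    have hex : ∃ b ∈ comp A x i, b ∉ (l.map Prod.fst).toFinset := by
      by_contra hcon
      have := card_le_card (show comp A x i ⊆ (l.map Prod.fst).toFinset from fun b hb => by
        by_contra hb2
        exact hcon ⟨b, hb, hb2⟩)
      omega
    obtain ⟨b, hb, hbl⟩ := hex
    have hb' : Relation.ReflTransGen (Adj A x) i b := by
      simpa [comp] using hb
    obtain ⟨c, d, hc, hd, hcd, _⟩ := boundary_edge (Adj A x) {j | j ∈ (l.map Prod.fst).toFinset}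
      (show i ∈ {j | j ∈ (l.map Prod.fst).toFinset} by simpa using hil) hbl hb'
    refine ⟨(d, x d) :: l, ?_, ?_, ?_, ?_⟩
    · simp only [LL, mem_biUnion, mem_image]
      refine ⟨l, hl, (d, x d), ?_, rfl⟩
      simp only [nbl, mem_filter, mem_univ, true_and]
      have hc' : c ∈ l.map Prod.fst := by simpa using hc
      obtain ⟨p, hp, rfl⟩ := List.mem_map.1 hc'
      refine ⟨p, hp, ?_⟩
      rw [← hx p hp]
      exact hcd
    · rw [List.map_cons, List.nodup_cons]
      refine ⟨?_, hnd⟩
      intro h
      exact hd (by simpa using h)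
    · rw [List.map_cons]
      exact List.mem_cons_of_mem _ hil
    · intro p hp
      rcases List.mem_cons.1 hp with rfl | hp
      · rfl
      · exact hx p hp

theorem match_count (s : ι → ZMod R → α) (B : ℕ)
    (hpriv : ∀ i, ∃ F : Finset (ZMod R), B ≤ F.card ∧
      ∀ q ∈ F, ∀ i' q', i' ≠ i → s i q ≠ s i' q')
    (l : List (ι × ZMod R)) (hl : (l.map Prod.fst).Nodup) :
    ((univ : Finset (ι → ZMod R)).filter fun x =>
        Free s x ∧ ∀ p ∈ l, x p.1 = p.2).card * B ^ l.length ≤
      ((univ : Finset (ι → ZMod R)).filter fun x => Free s x).card := by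
  choose F hF1 hF2 using hpriv
  set S : Finset ι := (l.map Prod.fst).toFinset with hS
  have hScard : S.card = l.length := by
    rw [hS, List.toFinset_card_of_nodup hl, List.length_map]
  set X : Finset (ι → ZMod R) := (univ : Finset (ι → ZMod R)).filter fun x =>
        Free s x ∧ ∀ p ∈ l, x p.1 = p.2 with hX
  set P : Finset ((i : {i // i ∈ S}) → ZMod R) := Fintype.piFinset (fun i : {i // i ∈ S} => F i.1)
    with hP
  have hPcard : B ^ l.length ≤ P.card := by
    rw [hP, Fintype.card_piFinset, ← hScard]
    calc B ^ S.card = ∏ _i : {i // i ∈ S}, B := by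
          rw [prod_const, card_univ, Fintype.card_coe]
      _ ≤ ∏ i : {i // i ∈ S}, (F i.1).card := prod_le_prod' fun i _ => hF1 i.1
  calc X.card * B ^ l.length ≤ X.card * P.card := Nat.mul_le_mul_left _ hPcard
    _ = (X ×ˢ P).card := (card_product _ _).symm
    _ ≤ ((univ : Finset (ι → ZMod R)).filter fun x => Free s x).card := by
      refine card_le_card_of_injOn
        (fun y => fun i => if h : i ∈ S then y.2 ⟨i, h⟩ else y.1 i) ?_ ?_
      · rintro ⟨x, c⟩ hy
        simp only [coe_product, Set.mem_prod, mem_coe] at hy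
        obtain ⟨hx, hc⟩ := hy
        rw [hX, mem_filter] at hx
        rw [hP, Fintype.mem_piFinset] at hc
        rw [mem_coe, mem_filter]
        refine ⟨mem_univ _, ?_⟩
        intro i j hij
        dsimp only
        by_cases hi : i ∈ S
        · rw [dif_pos hi]
          exact hF2 i _ (hc ⟨i, hi⟩) j _ hij.symm
        · by_cases hj : j ∈ S
          · rw [dif_neg hi, dif_pos hj]
            exact (hF2 j _ (hc ⟨j, hj⟩) i _ hij).symm
          · rw [dif_neg hi, dif_neg hj]
            exact hx.2.1 i j hij
      · rintro ⟨x, c⟩ hy ⟨x', c'⟩ hy' heq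
        simp only [coe_product, Set.mem_prod, mem_coe] at hy hy'
        obtain ⟨hx, hc⟩ := hy
        obtain ⟨hx', hc'⟩ := hy'
        rw [hX, mem_filter] at hx hx'
        have hpt : ∀ i, (if h : i ∈ S then c ⟨i, h⟩ else x i) =
            (if h : i ∈ S then c' ⟨i, h⟩ else x' i) := fun i => congrFun heq i
        refine Prod.ext ?_ ?_
        · funext i
          by_cases hi : i ∈ S
          · have hi' : i ∈ l.map Prod.fst := by simpa [hS] using hi
            obtain ⟨p, hp, rfl⟩ := List.mem_map.1 hi'
            show x p.1 = x' p.1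
            rw [hx.2.2 p hp, hx'.2.2 p hp]
          · have := hpt i
            rwa [dif_neg hi, dif_neg hi] at this
        · funext i
          have := hpt i.1
          rwa [dif_pos i.2, dif_pos i.2] at this

/-- If every particle has at least `B` private positions and every `(i, q)` has at most `Γ`
neighbours, then at most `k R (m Γ)^(m-1) / B^m` of the collision free configurations have a
component with at least `m` particles. -/
theorem bad_count (s : ι → ZMod R → α) (A : ι → ZMod R → Finset β) (Γ m B : ℕ) (hm : 1 ≤ m)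
    (hpriv : ∀ i, ∃ F : Finset (ZMod R), B ≤ F.card ∧
      ∀ q ∈ F, ∀ i' q', i' ≠ i → s i q ≠ s i' q')
    (hnb : ∀ i q, ((univ : Finset (ι × ZMod R)).filter fun p =>
      ¬ Disjoint (A i q) (A p.1 p.2)).card ≤ Γ) :
    ((univ : Finset (ι → ZMod R)).filter fun x =>
        Free s x ∧ ∃ i, m ≤ (comp A x i).card).card * B ^ m ≤
      Fintype.card ι * R * (m * Γ) ^ (m - 1) *
        ((univ : Finset (ι → ZMod R)).filter fun x => Free s x).card := by
  set Fr : Finset (ι → ZMod R) := (univ : Finset (ι → ZMod R)).filter fun x => Free s x with hFr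
  set LN : Finset (List (ι × ZMod R)) :=
    (LL A (m - 1)).filter fun l => (l.map Prod.fst).Nodup with hLN
  have hsub : ((univ : Finset (ι → ZMod R)).filter fun x =>
        Free s x ∧ ∃ i, m ≤ (comp A x i).card) ⊆
      LN.biUnion fun l => (univ : Finset (ι → ZMod R)).filter fun x =>
        Free s x ∧ ∀ p ∈ l, x p.1 = p.2 := by
    intro x hx
    rw [mem_filter] at hx
    obtain ⟨_, hfree, i, hi⟩ := hx
    obtain ⟨l, hl, hnd, _, hxl⟩ := exists_list A m x i hi (m - 1) (by omega)
    rw [mem_biUnion]
    exact ⟨l, by rw [hLN, mem_filter]; exact ⟨hl, hnd⟩,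
      by rw [mem_filter]; exact ⟨mem_univ _, hfree, hxl⟩⟩
  calc ((univ : Finset (ι → ZMod R)).filter fun x =>
        Free s x ∧ ∃ i, m ≤ (comp A x i).card).card * B ^ m
      ≤ (∑ l ∈ LN, ((univ : Finset (ι → ZMod R)).filter fun x =>
        Free s x ∧ ∀ p ∈ l, x p.1 = p.2).card) * B ^ m :=
        Nat.mul_le_mul_right _ ((card_le_card hsub).trans card_biUnion_le)
    _ = ∑ l ∈ LN, ((univ : Finset (ι → ZMod R)).filter fun x =>
        Free s x ∧ ∀ p ∈ l, x p.1 = p.2).card * B ^ m := by rw [sum_mul]
    _ ≤ ∑ _l ∈ LN, Fr.card := by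
      refine sum_le_sum fun l hl => ?_
      rw [hLN, mem_filter] at hl
      have h := match_count s B hpriv l hl.2
      rw [LL_length A _ l hl.1, show m - 1 + 1 = m by omega] at h
      exact h
    _ = LN.card * Fr.card := by rw [sum_const, smul_eq_mul]
    _ ≤ (Fintype.card ι * R * (m * Γ) ^ (m - 1)) * Fr.card := by
      refine Nat.mul_le_mul_right _ ?_
      exact (card_le_card (filter_subset _ _)).trans (LL_card A Γ m hnb (m - 1) (by omega))

end Pool.Agent.H72R
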