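import Pool.Agent.H72R.Basic

/-! Properties of sites, touched edges and windows. -/

set_option autoImplicit false

namespace Pool.Agent.H72R

open Finset
open scoped Classical

namespace Net

variable {k : ℕ} (N : Net k) {R : ℕ} [NeZero R]

omit [NeZero R] in
theorem site_inl_spec {i : Fin k} {q : ZMod R} {c : ℕ} (h : N.site R i q = Sum.inl c) :
    ∃ x, x < N.len i ∧ N.Z (N.e i x) ∧ ((N.cnt i x + 1 : ℕ) : ZMod R) = q ∧ N.e i x = c := by
  unfold site at h
  split_ifs at h with hx
  · have h1 := hx.choose_spec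
    exact ⟨hx.choose, h1.1, h1.2.1, h1.2.2, Sum.inl_injective h⟩

omit [NeZero R] in
theorem site_inr_spec {i : Fin k} {q : ZMod R} {p : Fin k × ZMod R}
    (h : N.site R i q = Sum.inr p) : p = (i, q) := by
  unfold site at h
  split_ifs at h with hx
  exact (Sum.inr_injective h).symm

omit [NeZero R] in
theorem site_inj (i : Fin k) : Function.Injective (N.site R i) := by
  intro q q' h
  rcases hs : N.site R i q with c | p
  · obtain ⟨x, hx, -, hq, hc⟩ := N.site_inl_spec hs
    obtain ⟨x', hx', -, hq', hc'⟩ := N.site_inl_spec (h.symm.trans hs)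
    have hxx : x = x' := N.inj i x x' hx hx' (hc.trans hc'.symm)
    subst hxx
    exact hq.symm.trans hq'
  · have h1 := N.site_inr_spec hs
    have h2 := N.site_inr_spec (h.symm.trans hs)
    have := h1.symm.trans h2
    exact (Prod.mk.inj this).2

omit [NeZero R] in
theorem touch_win {H : ℕ} (i : Fin k) (q : ZMod R) (d : ℕ) (hd : d < H) :
    N.Tch R i (q + (d : ZMod R)) ⊆ N.Win R H i q := by
  unfold Tch Win
  apply Finset.image_subset_image
  intro x hx
  rw [Finset.mem_filter] at hx ⊢
  refine ⟨hx.1, ?_⟩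
  rcases hx.2 with h | ⟨-, h⟩
  · refine ⟨d + 1, hd, ?_⟩
    push_cast
    rw [h]
    ring
  · exact ⟨d, hd.le, h⟩

omit [NeZero R] in
theorem mem_win_of_site {H : ℕ} {i : Fin k} {q : ZMod R} {d c : ℕ} (hd : d ≤ H)
    (h : N.site R i (q + (d : ZMod R)) = Sum.inl c) : c ∈ N.Win R H i q := by
  obtain ⟨x, hx, -, hq, hc⟩ := N.site_inl_spec h
  unfold Win
  rw [Finset.mem_image]
  refine ⟨x, ?_, hc⟩
  rw [Finset.mem_filter]
  exact ⟨Finset.mem_range.2 hx, d, hd, hq⟩

omit [NeZero R] in
theorem site_win {H : ℕ} (i i' : Fin k) (q q' : ZMod R) (d d' : ℕ) (hne : i ≠ i') (hd : d ≤ H)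
    (hd' : d' ≤ H) (h : N.site R i (q + (d : ZMod R)) = N.site R i' (q' + (d' : ZMod R))) :
    ¬ Disjoint (N.Win R H i q) (N.Win R H i' q') := by
  rcases hs : N.site R i (q + (d : ZMod R)) with c | p
  · rw [Finset.not_disjoint_iff]
    exact ⟨c, N.mem_win_of_site hd hs, N.mem_win_of_site hd' (h.symm.trans hs)⟩
  · have h1 := N.site_inr_spec hs
    have h2 := N.site_inr_spec (h.symm.trans hs)
    exact absurd (Prod.mk.inj (h1.symm.trans h2)).1 hne

theorem priv {r C D : ℕ} (hN : N.Ok r C D) (i : Fin k) :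
    ∃ F : Finset (ZMod R), R - D ≤ F.card ∧
      ∀ q ∈ F, ∀ i' q', i' ≠ i → N.site R i q ≠ N.site R i' q' := by
  refine ⟨((range (N.len i)).image fun x => ((N.cnt i x + 1 : ℕ) : ZMod R))ᶜ, ?_, ?_⟩
  · rw [Finset.card_compl, ZMod.card]
    have h1 : ((range (N.len i)).image fun x => ((N.cnt i x + 1 : ℕ) : ZMod R)).card ≤ N.len i :=
      Finset.card_image_le.trans (by simp)
    have h2 := hN.dil i
    omega
  · intro q hq i' q' hne heq
    rw [Finset.mem_compl, Finset.mem_image] at hq
    rcases hs : N.site R i q with c | p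
    · obtain ⟨x, hx, -, hqx, -⟩ := N.site_inl_spec hs
      exact hq ⟨x, Finset.mem_range.2 hx, hqx⟩
    · have h1 := N.site_inr_spec hs
      have h2 := N.site_inr_spec (heq.symm.trans hs)
      exact hne (Prod.mk.inj (h1.symm.trans h2)).1.symm

theorem cnt_le (i : Fin k) (x : ℕ) : N.cnt i x ≤ x := by
  unfold cnt
  exact (Finset.card_filter_le _ _).trans (by simp)

theorem cnt_mono (i : Fin k) {x y : ℕ} (h : x ≤ y) : N.cnt i x ≤ N.cnt i y := by
  unfold cnt
  apply Finset.card_le_card
  apply Finset.filter_subset_filter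
  exact Finset.range_subset_range.2 h

theorem cnt_lt (i : Fin k) {x y z : ℕ} (h : x ≤ z) (hz : z < y) (hZ : N.Z (N.e i z)) :
    N.cnt i x < N.cnt i y := by
  unfold cnt
  apply Finset.card_lt_card
  rw [Finset.ssubset_iff_of_subset
    (Finset.filter_subset_filter _ (Finset.range_subset_range.2 (h.trans hz.le)))]
  refine ⟨z, ?_, ?_⟩
  · rw [Finset.mem_filter]
    exact ⟨Finset.mem_range.2 hz, hZ⟩
  · rw [Finset.mem_filter, Finset.mem_range]
    omega

/-- Level sets of `cnt` have at most `r` elements. -/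
theorem level_card {r C D : ℕ} (hN : N.Ok r C D) (i : Fin k) (c : ℕ) :
    ((range (N.len i)).filter fun x => N.cnt i x = c).card ≤ r := by
  rcases Finset.eq_empty_or_nonempty ((range (N.len i)).filter fun x => N.cnt i x = c) with h | h
  · rw [h]; simp
  · set S := (range (N.len i)).filter fun x => N.cnt i x = c with hS
    have hmin := S.min'_mem h
    set a := S.min' h with ha
    have hsub : S ⊆ Finset.Ico a (a + r) := by
      intro y hy
      rw [Finset.mem_Ico]
      refine ⟨S.min'_le y hy, ?_⟩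
      by_contra hlt
      push Not at hlt
      have hy' := hy
      rw [hS, Finset.mem_filter, Finset.mem_range] at hy'
      have hm' := hmin
      rw [hS, Finset.mem_filter, Finset.mem_range] at hm'
      obtain ⟨z, hz1, hz2, hz3⟩ := hN.gap i a (by omega)
      have := N.cnt_lt i hz1 (lt_of_lt_of_le hz2 hlt) hz3
      omega
    calc S.card ≤ (Finset.Ico a (a + r)).card := Finset.card_le_card hsub
      _ = r := by simp

/-- The window has at most `(H + 1) r` edges. -/
theorem win_card {r C D H : ℕ} (hN : N.Ok r C D) (hR : D + 2 ≤ R) (i : Fin k) (q : ZMod R) :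
    (N.Win R H i q).card ≤ (H + 1) * r := by
  unfold Win
  refine Finset.card_image_le.trans ?_
  have hsub : ((range (N.len i)).filter fun x => ∃ d ≤ H,
      ((N.cnt i x + 1 : ℕ) : ZMod R) = q + (d : ZMod R)) ⊆
      (range (H + 1)).biUnion fun d => (range (N.len i)).filter fun x =>
        N.cnt i x = (q + (d : ZMod R)).val - 1 := by
    intro x hx
    rw [Finset.mem_filter, Finset.mem_range] at hx
    obtain ⟨hx1, d, hd, hq⟩ := hx
    rw [Finset.mem_biUnion]
    refine ⟨d, Finset.mem_range.2 (by omega), ?_⟩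
    rw [Finset.mem_filter]
    refine ⟨Finset.mem_range.2 hx1, ?_⟩
    rw [← hq, ZMod.val_natCast, Nat.mod_eq_of_lt]
    · simp
    · have h1 := N.cnt_le i x
      have h2 := hN.dil i
      omega
  refine (Finset.card_le_card hsub).trans ?_
  refine Finset.card_biUnion_le.trans ?_
  refine (Finset.sum_le_sum fun d _ => N.level_card hN i _).trans ?_
  simp

/-- An edge is in at most `C (H + 1)` windows. -/
theorem edge_count {r C D H : ℕ} (hN : N.Ok r C D) (c : ℕ) :
    ((univ : Finset (Fin k × ZMod R)).filter fun p => c ∈ N.Win R H p.1 p.2).card ≤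
      C * (H + 1) := by
  set S : Finset (Fin k) := univ.filter fun i : Fin k => ∃ x < N.len i, N.e i x = c with hS
  have hsub : ((univ : Finset (Fin k × ZMod R)).filter fun p => c ∈ N.Win R H p.1 p.2) ⊆
      (S ×ˢ range (H + 1)).image fun t =>
        (t.1, ((N.cnt t.1 (if h : ∃ x < N.len t.1, N.e t.1 x = c then h.choose else 0) + 1 : ℕ) :
          ZMod R) - (t.2 : ZMod R)) := by
    rintro ⟨i, q⟩ hp
    rw [Finset.mem_filter] at hp
    have h1 := hp.2
    unfold Win at h1
    rw [Finset.mem_image] at h1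
    obtain ⟨x, hx, hxc⟩ := h1
    rw [Finset.mem_filter, Finset.mem_range] at hx
    obtain ⟨hx1, d, hd, hq⟩ := hx
    have hex : ∃ x < N.len i, N.e i x = c := ⟨x, hx1, hxc⟩
    rw [Finset.mem_image]
    refine ⟨(i, d), ?_, ?_⟩
    · rw [Finset.mem_product]
      refine ⟨?_, Finset.mem_range.2 (by simp only; omega)⟩
      rw [hS, Finset.mem_filter]
      exact ⟨Finset.mem_univ _, hex⟩
    · have hch := hex.choose_spec
      have hxx : hex.choose = x := N.inj i _ _ hch.1 hx1 (hch.2.trans hxc.symm)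
      simp only [dif_pos hex, hxx, hq, add_sub_cancel_right]
  refine (Finset.card_le_card hsub).trans ?_
  refine Finset.card_image_le.trans ?_
  rw [Finset.card_product, Finset.card_range]
  exact Nat.mul_le_mul_right _ (hN.cong c)

theorem nb_count {r C D H : ℕ} (hN : N.Ok r C D) (hr : 1 ≤ r) (hR : D + 2 ≤ R) (i : Fin k)
    (q : ZMod R) :
    ((univ : Finset (Fin k × ZMod R)).filter fun p =>
      ¬ Disjoint (N.Win R H i q) (N.Win R H p.1 p.2)).card ≤ C * r * (H + 1) ^ 2 := by
  have hsub : ((univ : Finset (Fin k × ZMod R)).filter fun p =>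
      ¬ Disjoint (N.Win R H i q) (N.Win R H p.1 p.2)) ⊆
      (N.Win R H i q).biUnion fun c =>
        (univ : Finset (Fin k × ZMod R)).filter fun p => c ∈ N.Win R H p.1 p.2 := by
    intro p hp
    rw [Finset.mem_filter, Finset.not_disjoint_iff] at hp
    obtain ⟨c, hc1, hc2⟩ := hp.2
    rw [Finset.mem_biUnion]
    refine ⟨c, hc1, ?_⟩
    rw [Finset.mem_filter]
    exact ⟨Finset.mem_univ _, hc2⟩
  refine (Finset.card_le_card hsub).trans ?_
  refine Finset.card_biUnion_le.trans ?_
  refine (Finset.sum_le_sum fun c _ => N.edge_count hN c).trans ?_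
  rw [Finset.sum_const, smul_eq_mul]
  calc (N.Win R H i q).card * (C * (H + 1)) ≤ ((H + 1) * r) * (C * (H + 1)) :=
        Nat.mul_le_mul_right _ (N.win_card hN hR i q)
    _ = C * r * (H + 1) ^ 2 := by ring

end Net

end Pool.Agent.H72R
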