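import Pool.Agent.H72R.Chain

/-! Rounds of chains. -/

set_option autoImplicit false
set_option linter.unusedSectionVars false

namespace Pool.Agent.H72R

open Finset
open scoped Classical

variable {ι α β : Type} [Fintype ι] [DecidableEq ι] {R : ℕ} [NeZero R]
variable {s : ι → ZMod R → α} {A Tch : ι → ZMod R → Finset β} {m h H M0 Nr : ℕ}
variable {x : ι → ZMod R} {j : ℕ → ι}

/-- The hypotheses on sites and windows. -/
structure Hyp (s : ι → ZMod R → α) (A Tch : ι → ZMod R → Finset β) (m h H : ℕ) : Prop where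
  hs : ∀ i, Function.Injective (s i)
  hAT : ∀ i q (d : ℕ), d < H → Tch i (q + (d : ZMod R)) ⊆ A i q
  hAS : ∀ i i' q q' (d d' : ℕ), i ≠ i' → d ≤ H → d' ≤ H →
      s i (q + (d : ZMod R)) = s i' (q' + (d' : ZMod R)) → ¬ Disjoint (A i q) (A i' q')
  hH : m * h ≤ H
  hHR : H < R

theorem Lam_zero (a : ℕ) : Lam s x j a 0 = (Q s x j a, j a) := rfl

theorem Lam_succ (a n : ℕ) : Lam s x j a (n + 1) = stepL s (Lam s x j a n) := by
  unfold Lam
  rw [Function.iterate_succ_apply']

theorem Q_succ (a : ℕ) :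
    Q s x j (a + 1) = (Lam s x j a (ret s (Xs s x j a, j a))).1 := rfl

theorem semi_Lam (hx : Free s x) (a n : ℕ) : Semi s (rd R (Lam s x j a n)) := by
  rw [rd_Lam]
  exact iter_semi s (y := (Xs s x j a, j a)) (Xs_free s hx j a) n

theorem not_free_Lam (hx : Free s x) {a n : ℕ} (h1 : 1 ≤ n)
    (h2 : n < ret s (Xs s x j a, j a)) : ¬ Free s (rd R (Lam s x j a n)).1 := by
  rw [rd_Lam]
  exact (ret_spec s (y := (Xs s x j a, j a)) (Xs_free s hx j a)).2.2 n h1 h2

theorem chain_inv (hyp : Hyp s A Tch m h H) (hx : Free s x)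
    {yr : ι → ZMod R} {base : ι → ℕ} {a : ℕ}
    (hbase : ∀ p, (base p : ZMod R) = yr p)
    (hsmall : (comp A yr (j a)).card < m)
    (h1 : ∀ p, base p ≤ Q s x j a p ∧ Q s x j a p ≤ base p + H)
    (h2 : ∀ p ∈ comp A yr (j a), Q s x j a p + (m - 1) ≤ base p + H)
    (n : ℕ) (hn : n ≤ ret s (Xs s x j a, j a)) :
    ChInv s A m yr (Q s x j a) (j a) n (Lam s x j a n) := by
  induction n with
  | zero => rw [Lam_zero]; exact chain_zero
  | succ n ih =>
    rw [Lam_succ]
    refine chain_step hyp.hs hyp.hAS hyp.hHR hbase hsmall h1 h2 (ih (by omega))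
      (semi_Lam hx a n) ?_
    rcases Nat.eq_zero_or_pos n with h0 | h0
    · left; subst h0; exact ⟨rfl, rfl⟩
    · right; exact not_free_Lam hx h0 (by omega)

/-- number of choices of the component of `p` in round `ρ` before choice `a` -/
noncomputable def hits (s : ι → ZMod R → α) (A : ι → ZMod R → Finset β) (M0 : ℕ)
    (x : ι → ZMod R) (j : ℕ → ι) (ρ a : ℕ) (p : ι) : ℕ :=
  ((Ico (ρ * M0) a).filter fun b => j b ∈ comp A (Xs s x j (ρ * M0)) p).card

theorem hits_le (hg : Good s A m h M0 Nr x j) {ρ a : ℕ} (hρ : ρ < Nr)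
    (ha : a ≤ (ρ + 1) * M0) (p : ι) : hits s A M0 x j ρ a p ≤ h := by
  refine le_trans ?_ (hg.few ρ hρ p)
  exact card_le_card (filter_subset_filter _ (Ico_subset_Ico le_rfl ha))

theorem hits_succ {ρ a : ℕ} (ha : ρ * M0 ≤ a) {p : ι}
    (hp : j a ∈ comp A (Xs s x j (ρ * M0)) p) :
    hits s A M0 x j ρ (a + 1) p = hits s A M0 x j ρ a p + 1 := by
  unfold hits
  rw [show Ico (ρ * M0) (a + 1) = insert a (Ico (ρ * M0) a) by
    ext b; simp only [mem_Ico, mem_insert]; omega, filter_insert, if_pos hp, card_insert_of_notMem]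
  simp

theorem hits_mono {ρ a b : ℕ} (hab : a ≤ b) (p : ι) :
    hits s A M0 x j ρ a p ≤ hits s A M0 x j ρ b p :=
  card_le_card (filter_subset_filter _ (Ico_subset_Ico le_rfl hab))

theorem hits_lt (hg : Good s A m h M0 Nr x j) {ρ a : ℕ} (hρ : ρ < Nr) (h1 : ρ * M0 ≤ a)
    (ha : a < (ρ + 1) * M0) {p : ι} (hp : j a ∈ comp A (Xs s x j (ρ * M0)) p) :
    hits s A M0 x j ρ a p < h := by
  have h2 := hits_succ h1 hp
  have h3 := hits_le hg hρ (show a + 1 ≤ (ρ + 1) * M0 by omega) p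
  omega

theorem round_bound (hyp : Hyp s A Tch m h H) (hg : Good s A m h M0 Nr x j) {ρ : ℕ}
    (hρ : ρ < Nr) (t : ℕ) (ht : t ≤ M0) (p : ι) :
    Q s x j (ρ * M0) p ≤ Q s x j (ρ * M0 + t) p ∧
      Q s x j (ρ * M0 + t) p ≤ Q s x j (ρ * M0) p +
        (m - 1) * hits s A M0 x j ρ (ρ * M0 + t) p := by
  induction t generalizing p with
  | zero => exact ⟨le_rfl, by simp⟩
  | succ t ih =>
    have e1 : (ρ + 1) * M0 = ρ * M0 + M0 := by ring
    set a := ρ * M0 + t with ha
    have hstep : ∀ p, Q s x j a p ≤ Q s x j (a + 1) p ∧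
        Q s x j (a + 1) p ≤ Q s x j a p + (m - 1) ∧
        (p ∉ comp A (Xs s x j (ρ * M0)) (j a) → Q s x j (a + 1) p = Q s x j a p) := by
      have hinv := chain_inv (a := a) (yr := Xs s x j (ρ * M0)) (base := Q s x j (ρ * M0))
        hyp hg.free (fun p => congrFun (Q_cast s x j (ρ * M0)) p)
        (hg.small ρ hρ (j a)) ?_ ?_ (ret s (Xs s x j a, j a)) le_rfl
      · intro p
        rw [Q_succ]
        exact ⟨hinv.le p, hinv.few p, hinv.out p⟩
      · intro p
        have h1 := ih (by omega) p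
        have h2 := hits_le hg hρ (show a ≤ (ρ + 1) * M0 by omega) p
        have h3 : (m - 1) * hits s A M0 x j ρ a p ≤ H := by
          refine le_trans ?_ hyp.hH
          exact Nat.mul_le_mul (by omega) h2
        omega
      · intro p hp
        have h1 := ih (by omega) p
        have h2 := hits_lt hg hρ (show ρ * M0 ≤ a by omega) (by omega) (mem_comp_symm hp)
        have h3 : (m - 1) * (hits s A M0 x j ρ a p + 1) ≤ H := by
          refine le_trans ?_ hyp.hH
          exact Nat.mul_le_mul (by omega) h2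
        rw [Nat.mul_add, Nat.mul_one] at h3
        omega
    have h1 := ih (by omega) p
    obtain ⟨h2, h3, h4⟩ := hstep p
    have h5 : ρ * M0 + (t + 1) = a + 1 := by omega
    rw [h5]
    refine ⟨by omega, ?_⟩
    by_cases hp : p ∈ comp A (Xs s x j (ρ * M0)) (j a)
    · rw [hits_succ (by omega) (mem_comp_symm hp), Nat.mul_add, Nat.mul_one]
      omega
    · rw [h4 hp]
      have h6 := hits_mono (s := s) (A := A) (M0 := M0) (x := x) (j := j) (ρ := ρ)
        (show a ≤ a + 1 by omega) p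
      have h7 := Nat.mul_le_mul_left (m - 1) h6
      omega

/-- In a good run all chain states satisfy the invariant. -/
theorem good_inv (hyp : Hyp s A Tch m h H) (hg : Good s A m h M0 Nr x j) (hM0 : 1 ≤ M0)
    {a : ℕ} (ha : a < Nr * M0) (n : ℕ) (hn : n ≤ ret s (Xs s x j a, j a)) :
    a / M0 < Nr ∧ (a / M0) * M0 ≤ a ∧ a < (a / M0 + 1) * M0 ∧
    ChInv s A m (Xs s x j (a / M0 * M0)) (Q s x j a) (j a) n (Lam s x j a n) ∧
    (∀ p, Q s x j (a / M0 * M0) p ≤ Q s x j a p) ∧
    (∀ p ∈ comp A (Xs s x j (a / M0 * M0)) (j a),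
      Q s x j a p + (m - 1) ≤ Q s x j (a / M0 * M0) p + H) := by
  set ρ := a / M0 with hρd
  have hρ : ρ < Nr := by
    rw [hρd]; exact Nat.div_lt_of_lt_mul (by rw [mul_comm]; exact ha)
  have hle : ρ * M0 ≤ a := Nat.div_mul_le_self a M0
  have hlt : a < (ρ + 1) * M0 := by
    have := Nat.lt_div_mul_add (a := a) (b := M0) (by omega)
    calc a < a / M0 * M0 + M0 := this
      _ = (ρ + 1) * M0 := by rw [hρd]; ring
  have e1 : (ρ + 1) * M0 = ρ * M0 + M0 := by ring
  have hrb := fun p => round_bound hyp hg hρ (a - ρ * M0) (by omega) p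
  rw [show ρ * M0 + (a - ρ * M0) = a by omega] at hrb
  have h1 : ∀ p, Q s x j (ρ * M0) p ≤ Q s x j a p ∧
      Q s x j a p ≤ Q s x j (ρ * M0) p + H := by
    intro p
    have h1 := hrb p
    have h2 := hits_le hg hρ (show a ≤ (ρ + 1) * M0 by omega) p
    have h3 : (m - 1) * hits s A M0 x j ρ a p ≤ H := by
      refine le_trans ?_ hyp.hH
      exact Nat.mul_le_mul (by omega) h2
    omega
  have h2 : ∀ p ∈ comp A (Xs s x j (ρ * M0)) (j a),
      Q s x j a p + (m - 1) ≤ Q s x j (ρ * M0) p + H := by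
    intro p hp
    have h1 := hrb p
    have h2 := hits_lt hg hρ hle hlt (mem_comp_symm hp)
    have h3 : (m - 1) * (hits s A M0 x j ρ a p + 1) ≤ H := by
      refine le_trans ?_ hyp.hH
      exact Nat.mul_le_mul (by omega) h2
    rw [Nat.mul_add, Nat.mul_one] at h3
    omega
  refine ⟨hρ, hle, hlt, ?_, fun p => (h1 p).1, h2⟩
  exact chain_inv (a := a) (yr := Xs s x j (ρ * M0)) (base := Q s x j (ρ * M0))
        hyp hg.free (fun p => congrFun (Q_cast s x j (ρ * M0)) p)
        (hg.small ρ hρ (j a)) h1 h2 n hn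

end Pool.Agent.H72R
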