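import Pool.Agent.H72R.Basic

/-! From a transcript of the push dynamics to a schedule with buffers of size one. -/

set_option autoImplicit false

namespace Pool.Agent.H72R

open Finset
open scoped Classical

section Ev

variable {ι α β : Type} [Fintype ι] [DecidableEq ι] {R G Θ : ℕ}
  {s : ι → ZMod R → α} {Tch : ι → ZMod R → Finset β}

theorem Transcript.P_succ (tr : Transcript s Tch G Θ) (g : ℕ) (i : ι) :
    tr.P (g + 1) i = tr.P g i + if tr.w g = i then 1 else 0 := by
  rw [tr.move g]
  by_cases h : tr.w g = i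
  · subst h
    simp
  · rw [Function.update_of_ne (fun h' => h h'.symm), if_neg h, add_zero]

theorem Transcript.P_le (tr : Transcript s Tch G Θ) (i : ι) {g g' : ℕ} (h : g ≤ g') :
    tr.P g i ≤ tr.P g' i := by
  have hm : Monotone fun g => tr.P g i :=
    monotone_nat_of_le_succ fun g => by
      show tr.P g i ≤ tr.P (g + 1) i
      rw [tr.P_succ]
      exact Nat.le_add_right _ _
  exact hm h

/-- The move of particle `i` from position `q`. -/
theorem Transcript.exists_ev (tr : Transcript s Tch G Θ) (i : ι) {q : ℕ} (h1 : R ≤ q)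
    (h2 : q < 2 * R) : ∃ g, g < G ∧ tr.w g = i ∧ tr.P g i = q := by
  have hex : ∃ g, q < tr.P g i := ⟨G, lt_of_lt_of_le h2 (tr.final i)⟩
  have hs := Nat.find_spec hex
  have hG : Nat.find hex ≤ G := Nat.find_min' hex (lt_of_lt_of_le h2 (tr.final i))
  have h0 : Nat.find hex ≠ 0 := by
    intro h
    rw [h] at hs
    have := tr.start i
    omega
  obtain ⟨g, hg⟩ := Nat.exists_eq_succ_of_ne_zero h0
  have hm := Nat.find_min hex (m := g) (by omega)
  rw [hg, Nat.succ_eq_add_one, tr.P_succ] at hs
  have hw : tr.w g = i := by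
    by_contra h
    rw [if_neg h] at hs
    omega
  rw [if_pos hw] at hs
  exact ⟨g, by omega, hw, by omega⟩

/-- The particle moves from smaller positions first. -/
theorem Transcript.ev_lt (tr : Transcript s Tch G Θ) {i : ι} {g g' : ℕ}
    (h : tr.P g i < tr.P g' i) : g < g' := by
  by_contra h'
  have := tr.P_le i (show g' ≤ g by omega)
  omega

theorem Transcript.ev_unique (tr : Transcript s Tch G Θ) {i : ι} {g g' : ℕ}
    (hw : tr.w g = i) (hw' : tr.w g' = i) (h : tr.P g i = tr.P g' i) : g = g' := by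
  rcases lt_trichotomy g g' with h1 | h1 | h1
  · have h2 := tr.P_le i (show g + 1 ≤ g' by omega)
    rw [tr.P_succ, if_pos hw] at h2
    omega
  · exact h1
  · have h2 := tr.P_le i (show g' + 1 ≤ g by omega)
    rw [tr.P_succ, if_pos hw'] at h2
    omega

end Ev

section Cnt

variable {k : ℕ} (N : Net k)

theorem Net.scnt_succ (i : Fin k) (x : ℕ) :
    N.cnt i (x + 1) = N.cnt i x + if N.Z (N.e i x) then 1 else 0 := by
  unfold Net.cnt
  rw [Finset.range_add_one, Finset.filter_insert]
  split_ifs with h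
  · rw [Finset.card_insert_of_notMem (by simp)]
  · simp

theorem Net.scnt_le_self (i : Fin k) (x : ℕ) : N.cnt i x ≤ x := by
  unfold Net.cnt
  exact (Finset.card_filter_le _ _).trans (by simp)

theorem Net.scnt_mono (i : Fin k) {x y : ℕ} (h : x ≤ y) : N.cnt i x ≤ N.cnt i y := by
  have hm : Monotone fun x => N.cnt i x :=
    monotone_nat_of_le_succ fun x => by
      show N.cnt i x ≤ N.cnt i (x + 1)
      rw [N.scnt_succ]
      exact Nat.le_add_right _ _
  exact hm h

/-- The number of unmarked edges directly before edge `x`. -/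
noncomputable def Net.off (i : Fin k) : ℕ → ℕ
  | 0 => 0
  | x + 1 => if N.Z (N.e i x) then 0 else Net.off i x + 1

theorem Net.off_succ (i : Fin k) (x : ℕ) :
    N.off i (x + 1) = if N.Z (N.e i x) then 0 else N.off i x + 1 := rfl

theorem Net.off_spec (i : Fin k) (x : ℕ) :
    N.off i x ≤ x ∧ ∀ y, x - N.off i x ≤ y → y < x → ¬ N.Z (N.e i y) := by
  induction x with
  | zero => exact ⟨le_refl _, fun y _ h => absurd h (Nat.not_lt_zero _)⟩
  | succ x ih =>
    rw [N.off_succ]
    by_cases h : N.Z (N.e i x)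
    · rw [if_pos h]
      exact ⟨Nat.zero_le _, fun y h1 h2 => by omega⟩
    · rw [if_neg h]
      refine ⟨by omega, fun y h1 h2 => ?_⟩
      rcases Nat.lt_or_ge y x with h3 | h3
      · exact ih.2 y (by omega) h3
      · have : y = x := by omega
        rw [this]
        exact h

theorem Net.off_lt {r C D : ℕ} (hN : N.Ok r C D) (i : Fin k) {x : ℕ}
    (hx : x ≤ N.len i) : N.off i x < r := by
  by_contra h
  have h1 := N.off_spec i x
  obtain ⟨y, hy1, hy2, hy3⟩ := hN.gap i (x - r) (by omega)
  exact h1.2 y (by omega) (by omega) hy3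

theorem Net.site_eq {R D : ℕ} (i : Fin k) {x : ℕ} (hD : N.len i ≤ D) (hR : D + 2 ≤ R)
    (hx : x < N.len i) (hZ : N.Z (N.e i x)) :
    N.site R i ((N.cnt i x + 1 : ℕ) : ZMod R) = Sum.inl (N.e i x) := by
  have hex : ∃ y, y < N.len i ∧ N.Z (N.e i y) ∧
      ((N.cnt i y + 1 : ℕ) : ZMod R) = ((N.cnt i x + 1 : ℕ) : ZMod R) := ⟨x, hx, hZ, rfl⟩
  unfold Net.site
  rw [dif_pos hex]
  obtain ⟨h1, h2, h3⟩ := hex.choose_spec
  generalize hex.choose = y at h1 h2 h3 ⊢
  have h4 := N.scnt_le_self i x
  have h5 := N.scnt_le_self i y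
  rw [ZMod.natCast_eq_natCast_iff', Nat.mod_eq_of_lt (by omega), Nat.mod_eq_of_lt (by omega)] at h3
  have h6 : N.cnt i y = N.cnt i x := by omega
  rcases lt_trichotomy x y with h7 | h7 | h7
  · have h8 := N.scnt_mono i (show x + 1 ≤ y by omega)
    rw [N.scnt_succ, if_pos hZ] at h8
    omega
  · rw [h7]
  · have h8 := N.scnt_mono i (show y + 1 ≤ x by omega)
    rw [N.scnt_succ, if_pos h2] at h8
    omega

theorem Net.mem_Tch1 {R : ℕ} (i : Fin k) {x : ℕ} (hx : x < N.len i) :
    N.e i x ∈ N.Tch R i ((R + N.cnt i x : ℕ) : ZMod R) := by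
  unfold Net.Tch
  refine Finset.mem_image.mpr ⟨x, Finset.mem_filter.mpr ⟨Finset.mem_range.mpr hx, Or.inl ?_⟩, rfl⟩
  push_cast
  simp

theorem Net.mem_Tch2 {R : ℕ} (i : Fin k) {x : ℕ} (hx : x < N.len i) (hZ : N.Z (N.e i x)) :
    N.e i x ∈ N.Tch R i ((R + (N.cnt i x + 1) : ℕ) : ZMod R) := by
  unfold Net.Tch
  refine Finset.mem_image.mpr
    ⟨x, Finset.mem_filter.mpr ⟨Finset.mem_range.mpr hx, Or.inr ⟨hZ, ?_⟩⟩, rfl⟩
  push_cast
  simp

end Cnt

theorem sched {k : ℕ} (N : Net k) {r C D R G Θ : ℕ} (hN : N.Ok r C D) (hr : 1 ≤ r)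
    (hR : D + 2 ≤ R) (tr : Transcript (N.site R) (N.Tch R) G Θ) :
    ∃ T : Fin k → ℕ → ℕ,
      (∀ i x, x + 1 < N.len i → T i x < T i (x + 1)) ∧
      (∀ i x, x < N.len i → T i x ≤ (Θ + 1) * (r + 1)) ∧
      (∀ i i' x x', i ≠ i' → x < N.len i → x' < N.len i' → N.e i x = N.e i' x' →
        T i x ≠ T i' x') ∧
      (∀ i i' x x', i ≠ i' → x + 1 < N.len i → x' + 1 < N.len i' → N.e i x = N.e i' x' →
        T i (x + 1) ≤ T i' x' ∨ T i' (x' + 1) ≤ T i x) := by
  have hev : ∀ i : Fin k, ∀ c, c < R → ∃ g, g < G ∧ tr.w g = i ∧ tr.P g i = R + c :=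
    fun i c hc => tr.exists_ev i (by omega) (by omega)
  choose! ev hG hw hP using hev
  have hlen : ∀ i, N.len i ≤ D := hN.dil
  have hcR : ∀ i x, x < N.len i → N.cnt i x + 1 < R := fun i x hx => by
    have h1 := N.scnt_le_self i x
    have h2 := hlen i
    omega
  -- slots of different packets on a common touched edge
  have htouch : ∀ i i' c c' f, i ≠ i' → c < R → c' < R →
      f ∈ N.Tch R i ((R + c : ℕ) : ZMod R) → f ∈ N.Tch R i' ((R + c' : ℕ) : ZMod R) →
      ev i c < ev i' c' → tr.θ (ev i c) < tr.θ (ev i' c') := by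
    intro i i' c c' f hii hc hc' hf hf' hlt
    refine tr.touch _ _ hlt (hG i' c' hc') ?_ ?_
    · rw [hw i c hc, hw i' c' hc']
      exact hii
    · rw [hw i c hc, hw i' c' hc', hP i c hc, hP i' c' hc']
      exact Finset.not_disjoint_iff.mpr ⟨f, hf, hf'⟩
  have hevne : ∀ i i' c c', i ≠ i' → c < R → c' < R → ev i c ≠ ev i' c' := by
    intro i i' c c' hii hc hc' h
    apply hii
    rw [← hw i c hc, ← hw i' c' hc', h]
  have hθne : ∀ i i' x x', i ≠ i' → x < N.len i → x' < N.len i' → N.e i x = N.e i' x' →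
      tr.θ (ev i (N.cnt i x)) ≠ tr.θ (ev i' (N.cnt i' x')) := by
    intro i i' x x' hii hx hx' he
    have hc := hcR i x hx
    have hc' := hcR i' x' hx'
    have hm := N.mem_Tch1 (R := R) i hx
    have hm' := N.mem_Tch1 (R := R) i' hx'
    rcases lt_or_gt_of_ne (hevne i i' (N.cnt i x) (N.cnt i' x') hii (by omega) (by omega))
      with h | h
    · exact ne_of_lt (htouch i i' _ _ (N.e i x) hii (by omega) (by omega) hm (he ▸ hm') h)
    · exact ne_of_gt (htouch i' i _ _ (N.e i x) (Ne.symm hii) (by omega) (by omega)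
        (he ▸ hm') hm h)
  set T : Fin k → ℕ → ℕ := fun i x =>
    if N.Z (N.e i x) then (tr.θ (ev i (N.cnt i x)) + 1) * (r + 1)
    else tr.θ (ev i (N.cnt i x)) * (r + 1) + N.off i x with hT
  have hTZ : ∀ i x, N.Z (N.e i x) → T i x = (tr.θ (ev i (N.cnt i x)) + 1) * (r + 1) :=
    fun i x h => if_pos h
  have hTn : ∀ i x, ¬ N.Z (N.e i x) →
      T i x = tr.θ (ev i (N.cnt i x)) * (r + 1) + N.off i x := fun i x h => if_neg h
  have hTle : ∀ i x, x < N.len i → T i x ≤ (tr.θ (ev i (N.cnt i x)) + 1) * (r + 1) := by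
    intro i x hx
    by_cases h : N.Z (N.e i x)
    · exact (hTZ i x h).le
    · rw [hTn i x h]
      have := N.off_lt hN i hx.le
      nlinarith
  have hTge : ∀ i x, tr.θ (ev i (N.cnt i x)) * (r + 1) ≤ T i x := by
    intro i x
    by_cases h : N.Z (N.e i x)
    · rw [hTZ i x h]
      nlinarith
    · rw [hTn i x h]
      exact Nat.le_add_right _ _
  -- the packet that arrives first leaves in time
  have key : ∀ i i' x x', i ≠ i' → x + 1 < N.len i → x' < N.len i' → N.e i x = N.e i' x' →
      ev i (N.cnt i x) < ev i' (N.cnt i' x') → T i (x + 1) ≤ T i' x' := by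
    intro i i' x x' hii hx hx' he hlt
    have hc := hcR i x (by omega)
    have hc' := hcR i' x' hx'
    have hm := N.mem_Tch1 (R := R) i (x := x) (by omega)
    have hm' := N.mem_Tch1 (R := R) i' hx'
    by_cases hZ : N.Z (N.e i x)
    · have hZ' : N.Z (N.e i' x') := he ▸ hZ
      have hnZ : ¬ N.Z (N.e i (x + 1)) := N.sep i x hx hZ
      have hcs : N.cnt i (x + 1) = N.cnt i x + 1 := by rw [N.scnt_succ, if_pos hZ]
      have hoff : N.off i (x + 1) = 0 := by rw [N.off_succ, if_pos hZ]
      rw [hTn i (x + 1) hnZ, hTZ i' x' hZ', hcs, hoff, add_zero]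
      set c := N.cnt i x with hcdef
      set c' := N.cnt i' x' with hcdef'
      have h12 : ev i c < ev i (c + 1) := by
        apply tr.ev_lt (i := i)
        rw [hP i c (by omega), hP i (c + 1) (by omega)]
        omega
      have hne := hevne i i' (c + 1) c' hii (by omega) (by omega)
      rcases lt_or_gt_of_ne hne with h | h
      · -- the packet leaves before the other one arrives
        have h3 := htouch i i' (c + 1) c' (N.e i x) hii (by omega) (by omega)
          (N.mem_Tch2 i (by omega) hZ) (he ▸ hm') h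
        exact Nat.mul_le_mul_right _ (by omega)
      · -- collision
        have hPi : tr.P (ev i' c' + 1) i = R + (c + 1) := by
          have h4 := tr.P_le i (show ev i c + 1 ≤ ev i' c' + 1 by omega)
          have h5 := tr.P_le i (show ev i' c' + 1 ≤ ev i (c + 1) by omega)
          rw [tr.P_succ, if_pos (hw i c (by omega)), hP i c (by omega)] at h4
          rw [hP i (c + 1) (by omega)] at h5
          omega
        have hPi' : tr.P (ev i' c' + 1) i' = R + (c' + 1) := by
          rw [tr.P_succ, if_pos (hw i' c' (by omega)), hP i' c' (by omega)]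
          omega
        have hcast : ∀ a : ℕ, ((R + a : ℕ) : ZMod R) = (a : ZMod R) := by
          intro a
          push_cast
          simp
        have hcoll := tr.coll (ev i' c') (hG i' c' (by omega)) i
          (by rw [hw i' c' (by omega)]; exact hii)
          (by
            rw [hw i' c' (by omega), hPi, hPi', hcast, hcast,
              N.site_eq i (hlen i) hR (by omega) hZ, N.site_eq i' (hlen i') hR hx' hZ', he])
        obtain ⟨h6, h7, h8⟩ := hcoll
        have h9 : ev i' c' + 1 = ev i (c + 1) := by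
          apply tr.ev_unique h7 (hw i (c + 1) (by omega))
          rw [hPi, hP i (c + 1) (by omega)]
        rw [← h9, h8]
    · have h1 := htouch i i' _ _ (N.e i x) hii (by omega) (by omega) hm (he ▸ hm') hlt
      have hcs : N.cnt i (x + 1) = N.cnt i x := by rw [N.scnt_succ, if_neg hZ, add_zero]
      have h2 := hTle i (x + 1) hx
      rw [hcs] at h2
      have h3 := hTge i' x'
      refine h2.trans (le_trans ?_ h3)
      exact Nat.mul_le_mul_right _ (by omega)
  refine ⟨T, ?_, ?_, ?_, ?_⟩
  · intro i x hx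
    have hc := hcR i x (by omega)
    by_cases hZ : N.Z (N.e i x)
    · have hnZ : ¬ N.Z (N.e i (x + 1)) := N.sep i x hx hZ
      have hcs : N.cnt i (x + 1) = N.cnt i x + 1 := by rw [N.scnt_succ, if_pos hZ]
      rw [hTZ i x hZ, hTn i (x + 1) hnZ, hcs]
      have h12 : ev i (N.cnt i x) < ev i (N.cnt i x + 1) := by
        apply tr.ev_lt (i := i)
        rw [hP i (N.cnt i x) (by omega), hP i (N.cnt i x + 1) (by omega)]
        omega
      have h3 := tr.again _ _ h12 (hG i (N.cnt i x + 1) (by omega))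
        (by rw [hw i _ (by omega), hw i _ (by omega)])
      nlinarith
    · have hcs : N.cnt i (x + 1) = N.cnt i x := by rw [N.scnt_succ, if_neg hZ, add_zero]
      have hoff := N.off_lt hN i (show x ≤ N.len i by omega)
      rw [hTn i x hZ]
      by_cases hZ' : N.Z (N.e i (x + 1))
      · rw [hTZ i (x + 1) hZ', hcs]
        nlinarith
      · rw [hTn i (x + 1) hZ', hcs, N.off_succ, if_neg hZ]
        omega
  · intro i x hx
    have hc := hcR i x hx
    refine (hTle i x hx).trans (Nat.mul_le_mul_right _ ?_)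
    have := tr.bound _ (hG i (N.cnt i x) (by omega))
    omega
  · intro i i' x x' hii hx hx' he h
    have hne := hθne i i' x x' hii hx hx' he
    by_cases hZ : N.Z (N.e i x)
    · have hZ' : N.Z (N.e i' x') := he ▸ hZ
      rw [hTZ i x hZ, hTZ i' x' hZ'] at h
      have := Nat.eq_of_mul_eq_mul_right (show 0 < r + 1 by omega) h
      omega
    · have hZ' : ¬ N.Z (N.e i' x') := he ▸ hZ
      have h1 := N.off_lt hN i hx.le
      have h2 := N.off_lt hN i' hx'.le
      rw [hTn i x hZ, hTn i' x' hZ'] at h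
      rcases lt_or_gt_of_ne hne with h3 | h3
      · nlinarith
      · nlinarith
  · intro i i' x x' hii hx hx' he
    have hc := hcR i x (by omega)
    have hc' := hcR i' x' (by omega)
    rcases lt_or_gt_of_ne (hevne i i' (N.cnt i x) (N.cnt i' x') hii (by omega) (by omega))
      with h | h
    · exact Or.inl (key i i' x x' hii hx (by omega) he h)
    · exact Or.inr (key i' i x' x (Ne.symm hii) hx' (by omega) he.symm h)

end Pool.Agent.H72R
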