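import Pool.Agent.H72R.Rounds

/-! A good configuration gives a transcript. -/

set_option autoImplicit false
set_option linter.unusedSectionVars false

namespace Pool.Agent.H72R

open Finset
open scoped Classical

variable {ι α β : Type} [Fintype ι] [DecidableEq ι] {R : ℕ} [NeZero R]
variable {s : ι → ZMod R → α} {A Tch : ι → ZMod R → Finset β} {m h H M0 Nr : ℕ}
variable {x : ι → ZMod R} {j : ℕ → ι}

/-- Event `g` is step number `(idx g).2` of chain number `(idx g).1`. -/
noncomputable def idx (s : ι → ZMod R → α) (x : ι → ZMod R) (j : ℕ → ι) : ℕ → ℕ × ℕ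
  | 0 => (0, 0)
  | g + 1 =>
    if (idx s x j g).2 + 1 < ret s (Xs s x j (idx s x j g).1, j (idx s x j g).1) then
      ((idx s x j g).1, (idx s x j g).2 + 1) else ((idx s x j g).1 + 1, 0)

/-- The first event of chain number `a`. -/
noncomputable def gs (s : ι → ZMod R → α) (x : ι → ZMod R) (j : ℕ → ι) : ℕ → ℕ
  | 0 => 0
  | a + 1 => gs s x j a + ret s (Xs s x j a, j a)

theorem ret_pos (hx : Free s x) (a : ℕ) : 1 ≤ ret s (Xs s x j a, j a) :=
  (ret_spec s (y := (Xs s x j a, j a)) (Xs_free s hx j a)).1

theorem idx_lt (hx : Free s x) (g : ℕ) :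
    (idx s x j g).2 < ret s (Xs s x j (idx s x j g).1, j (idx s x j g).1) := by
  induction g with
  | zero => exact ret_pos hx 0
  | succ g ih =>
    rw [idx]
    split_ifs with hc
    · exact hc
    · exact ret_pos hx _

theorem idx_succ_or (hx : Free s x) (g : ℕ) :
    ((idx s x j g).2 + 1 < ret s (Xs s x j (idx s x j g).1, j (idx s x j g).1) ∧
      idx s x j (g + 1) = ((idx s x j g).1, (idx s x j g).2 + 1)) ∨
    ((idx s x j g).2 + 1 = ret s (Xs s x j (idx s x j g).1, j (idx s x j g).1) ∧
      idx s x j (g + 1) = ((idx s x j g).1 + 1, 0)) := by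
  have h1 := idx_lt (j := j) hx g
  rw [idx]
  split_ifs with hc
  · left; exact ⟨hc, rfl⟩
  · right; exact ⟨by omega, rfl⟩

theorem idx_lex (hx : Free s x) {g g' : ℕ} (hgg : g < g') :
    (idx s x j g).1 < (idx s x j g').1 ∨
      ((idx s x j g).1 = (idx s x j g').1 ∧ (idx s x j g).2 < (idx s x j g').2) := by
  induction g' with
  | zero => omega
  | succ g' ih =>
    have h1 : (idx s x j g').1 < (idx s x j (g' + 1)).1 ∨
      ((idx s x j g').1 = (idx s x j (g' + 1)).1 ∧
        (idx s x j g').2 < (idx s x j (g' + 1)).2) := by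
      rcases idx_succ_or (j := j) hx g' with ⟨_, h⟩ | ⟨_, h⟩
      · right; rw [h]; exact ⟨rfl, by simp⟩
      · left; rw [h]; simp
    rcases Nat.lt_or_ge g g' with h2 | h2
    · rcases ih h2 with h3 | h3 <;> rcases h1 with h4 | h4 <;> omega
    · have : g = g' := by omega
      rw [this]; exact h1

theorem idx_gs (hx : Free s x) (a n : ℕ) (hn : n < ret s (Xs s x j a, j a)) :
    idx s x j (gs s x j a + n) = (a, n) := by
  induction a generalizing n with
  | zero =>
    induction n with
    | zero => rfl
    | succ n ih2 =>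
      have h1 := ih2 (by omega)
      have h2 : gs s x j 0 + (n + 1) = (gs s x j 0 + n) + 1 := by omega
      rw [h2, idx, h1, if_pos (by simpa using hn)]
  | succ a ih =>
    induction n with
    | zero =>
      have hr := ret_pos (j := j) hx a
      have h1 := ih (ret s (Xs s x j a, j a) - 1) (by omega)
      have h2 : gs s x j (a + 1) + 0 = (gs s x j a + (ret s (Xs s x j a, j a) - 1)) + 1 := by
        rw [gs]; omega
      rw [h2, idx, h1, if_neg (by simp only; omega)]
    | succ n ih2 =>
      have h1 := ih2 (by omega)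
      have h2 : gs s x j (a + 1) + (n + 1) = (gs s x j (a + 1) + n) + 1 := by omega
      rw [h2, idx, h1, if_pos (by simpa using hn)]

/-- Positions before event `g`. -/
noncomputable def PP (s : ι → ZMod R → α) (x : ι → ZMod R) (j : ℕ → ι) (g : ℕ) : ι → ℕ :=
  (Lam s x j (idx s x j g).1 (idx s x j g).2).1

/-- The particle moved in event `g`. -/
noncomputable def ww (s : ι → ZMod R → α) (x : ι → ZMod R) (j : ℕ → ι) (g : ℕ) : ι :=
  (Lam s x j (idx s x j g).1 ((idx s x j g).2 + 1)).2

theorem PP_succ' (hx : Free s x) (g : ℕ) :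
    PP s x j (g + 1) = (Lam s x j (idx s x j g).1 ((idx s x j g).2 + 1)).1 := by
  unfold PP
  rcases idx_succ_or (j := j) hx g with ⟨_, h⟩ | ⟨h1, h⟩
  · rw [h]
  · rw [h, Lam_zero, h1, Q_succ]

theorem PP_succ (hx : Free s x) (g : ℕ) :
    PP s x j (g + 1) = Function.update (PP s x j g) (ww s x j g)
      (PP s x j g (ww s x j g) + 1) := by
  rw [PP_succ' hx, Lam_succ]
  unfold ww PP
  rw [Lam_succ]
  rfl

/-- The slot of event `g`. -/
noncomputable def th (s : ι → ZMod R → α) (A : ι → ZMod R → Finset β) (m h M0 : ℕ)
    (x : ι → ZMod R) (j : ℕ → ι) (g : ℕ) : ℕ :=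
  ((idx s x j g).1 / M0 * h +
    hits s A M0 x j ((idx s x j g).1 / M0) (idx s x j g).1 (j (idx s x j g).1)) * m ^ 2 +
    (idx s x j g).2

theorem Q_ge (hx : Free s x) (a : ℕ) (i : ι) :
    ((range a).filter fun b => j b = i).card ≤ Q s x j a i := by
  induction a with
  | zero => simp
  | succ a ih =>
    have hr := ret_pos (j := j) hx a
    have hmono : ∀ n, 1 ≤ n → Q s x j a i + (if j a = i then 1 else 0) ≤
        (Lam s x j a n).1 i := by
      intro n hn
      induction n with
      | zero => omega
      | succ n ih2 =>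
        rcases Nat.eq_zero_or_pos n with h0 | h0
        · subst h0
          rw [Lam_succ, Lam_zero]
          have hm : mover s (rd R (Q s x j a, j a)) = j a := by
            rw [rd_Q]
            exact mover_of_free (y := (Xs s x j a, j a)) (Xs_free s hx j a)
          unfold stepL
          rw [hm]
          by_cases hji : j a = i
          · rw [if_pos hji, ← hji]; simp
          · rw [if_neg hji]; simp only [Function.update_of_ne (Ne.symm hji)]; omega
        · refine le_trans (ih2 h0) ?_
          rw [Lam_succ]
          unfold stepL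
          by_cases hmi : i = mover s (rd R (Lam s x j a n))
          · rw [← hmi]; simp
          · simp only [Function.update_of_ne hmi]; exact le_rfl
    have h1 := hmono _ hr
    rw [Q_succ]
    rw [range_add_one, filter_insert]
    split_ifs with hji
    · rw [if_pos hji] at h1
      have := card_insert_le a ((range a).filter fun b => j b = i)
      omega
    · rw [if_neg hji] at h1
      omega

theorem transcript_of_good (hyp : Hyp s A Tch m h H) (hM0 : 1 ≤ M0)
    (hg : Good s A m h M0 Nr x j) :
    ∃ G, Nonempty (Transcript s Tch G (Nr * h * m ^ 2)) := by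
  have hx := hg.free
  have hG : idx s x j (gs s x j (Nr * M0)) = (Nr * M0, 0) := by
    have := idx_gs (j := j) hx (Nr * M0) 0 (ret_pos hx _)
    simpa using this
  have hlt : ∀ g < gs s x j (Nr * M0), (idx s x j g).1 < Nr * M0 := by
    intro g hgG
    have := idx_lex (j := j) hx hgG
    rw [hG] at this
    simp only at this
    omega
  -- data of event g
  have hinfo := fun g (hgG : g < gs s x j (Nr * M0)) =>
    good_inv hyp hg hM0 (hlt g hgG) ((idx s x j g).2 + 1) (idx_lt hx g)
  have hinfo0 := fun g (hgG : g < gs s x j (Nr * M0)) =>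
    good_inv hyp hg hM0 (hlt g hgG) (idx s x j g).2 (idx_lt hx g).le
  have hlen : ∀ g < gs s x j (Nr * M0), (idx s x j g).2 + 2 ≤ m ^ 2 := by
    intro g hgG
    obtain ⟨h1, _, _, h4, _⟩ := hinfo g hgG
    have := h4.length (hg.small _ h1 _)
    omega
  have hhit : ∀ g < gs s x j (Nr * M0),
      hits s A M0 x j ((idx s x j g).1 / M0) (idx s x j g).1 (j (idx s x j g).1) < h := by
    intro g hgG
    obtain ⟨h1, h2, h3, _⟩ := hinfo g hgG
    exact hits_lt hg h1 h2 h3 mem_comp_self
  -- the moved particle is in the component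
  have hwmem : ∀ g < gs s x j (Nr * M0), ww s x j g ∈
      comp A (Xs s x j ((idx s x j g).1 / M0 * M0)) (j (idx s x j g).1) := by
    intro g hgG
    exact (hinfo g hgG).2.2.2.1.mem
  -- the touched edges are in the window
  have htouch : ∀ g < gs s x j (Nr * M0),
      Tch (ww s x j g) (PP s x j g (ww s x j g) : ZMod R) ⊆
        A (ww s x j g) (Xs s x j ((idx s x j g).1 / M0 * M0) (ww s x j g)) := by
    intro g hgG
    obtain ⟨h1, h2, h3, h4, h5, h6⟩ := hinfo g hgG
    have h7 := (hinfo0 g hgG).2.2.2.1
    have h8 := h4.few (ww s x j g)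
    have h9 := h7.le (ww s x j g)
    have h10 : (Lam s x j (idx s x j g).1 ((idx s x j g).2 + 1)).1 (ww s x j g) =
        PP s x j g (ww s x j g) + 1 := by
      rw [← PP_succ' hx, PP_succ hx]; simp
    have h11 := h5 (ww s x j g)
    have h12 := h6 _ (hwmem g hgG)
    have h13 : (Lam s x j (idx s x j g).1 (idx s x j g).2).1 (ww s x j g) =
        PP s x j g (ww s x j g) := rfl
    have h14 := hyp.hAT (ww s x j g) (Xs s x j ((idx s x j g).1 / M0 * M0) (ww s x j g))
      (PP s x j g (ww s x j g) - Q s x j ((idx s x j g).1 / M0 * M0) (ww s x j g)) (by omega)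
    rw [← congrFun (Q_cast s x j ((idx s x j g).1 / M0 * M0)) (ww s x j g)] at h14
    rw [← congrFun (Q_cast s x j ((idx s x j g).1 / M0 * M0)) (ww s x j g)]
    have e1 : ((Q s x j ((idx s x j g).1 / M0 * M0) (ww s x j g) : ℕ) : ZMod R) +
        ((PP s x j g (ww s x j g) - Q s x j ((idx s x j g).1 / M0 * M0) (ww s x j g) : ℕ) :
          ZMod R) = ((PP s x j g (ww s x j g) : ℕ) : ZMod R) := by
      rw [← Nat.cast_add]; congr 1; omega
    rw [e1] at h14
    exact h14
  -- order of slots
  have hord1 : ∀ g g', g < g' → g' < gs s x j (Nr * M0) →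
      (idx s x j g).1 / M0 < (idx s x j g').1 / M0 →
      th s A m h M0 x j g + 2 ≤ th s A m h M0 x j g' := by
    intro g g' hgg hgG hρ
    have h1 := hlen g (by omega)
    have h2 := hhit g (by omega)
    have h3 : ((idx s x j g).1 / M0 * h +
      hits s A M0 x j ((idx s x j g).1 / M0) (idx s x j g).1 (j (idx s x j g).1) + 1)
        * m ^ 2 ≤ ((idx s x j g').1 / M0 * h) * m ^ 2 := by
      apply Nat.mul_le_mul_right
      have h4 : ((idx s x j g).1 / M0 + 1) * h ≤ (idx s x j g').1 / M0 * h :=
        Nat.mul_le_mul_right _ hρ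
      rw [Nat.add_mul, Nat.one_mul] at h4
      omega
    unfold th
    rw [Nat.add_mul _ 1, Nat.one_mul] at h3
    rw [Nat.add_mul ((idx s x j g').1 / M0 * h)]
    omega
  have hord2 : ∀ g g', g < g' → g' < gs s x j (Nr * M0) →
      (idx s x j g).1 / M0 = (idx s x j g').1 / M0 →
      (idx s x j g).1 < (idx s x j g').1 →
      j (idx s x j g).1 ∈ comp A (Xs s x j ((idx s x j g').1 / M0 * M0))
        (j (idx s x j g').1) →
      th s A m h M0 x j g + 2 ≤ th s A m h M0 x j g' := by
    intro g g' hgg hgG hρ ha hc
    have h1 := hlen g (by omega)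
    obtain ⟨h5, h6, h7, _⟩ := hinfo g (by omega)
    have h3 : hits s A M0 x j ((idx s x j g).1 / M0) (idx s x j g).1 (j (idx s x j g).1) + 1
        ≤ hits s A M0 x j ((idx s x j g').1 / M0) (idx s x j g').1 (j (idx s x j g').1) := by
      rw [← hρ] at hc ⊢
      have h8 : hits s A M0 x j ((idx s x j g).1 / M0) (idx s x j g).1
          (j (idx s x j g).1) = hits s A M0 x j ((idx s x j g).1 / M0) (idx s x j g).1
          (j (idx s x j g').1) := by
        unfold hits
        rw [comp_eq hc]
      rw [h8, ← hits_succ h6 hc]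
      exact hits_mono (by omega) _
    have h4 : ((idx s x j g).1 / M0 * h +
      hits s A M0 x j ((idx s x j g).1 / M0) (idx s x j g).1 (j (idx s x j g).1) + 1)
        * m ^ 2 ≤ ((idx s x j g').1 / M0 * h +
      hits s A M0 x j ((idx s x j g').1 / M0) (idx s x j g').1 (j (idx s x j g').1))
        * m ^ 2 := by
      apply Nat.mul_le_mul_right
      rw [hρ] at h3 ⊢
      omega
    unfold th
    rw [Nat.add_mul _ 1, Nat.one_mul] at h4
    omega
  refine ⟨gs s x j (Nr * M0), ⟨{
    P := PP s x j
    w := ww s x j
    θ := th s A m h M0 x j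
    start := ?_
    move := PP_succ hx
    final := ?_
    coll := ?_
    touch := ?_
    again := ?_
    bound := ?_ }⟩⟩
  · intro i
    have : PP s x j 0 i = (x i).val := rfl
    rw [this]
    exact ZMod.val_lt (x i)
  · intro i
    have h1 : PP s x j (gs s x j (Nr * M0)) = Q s x j (Nr * M0) := by
      unfold PP; rw [hG]; rfl
    rw [h1]
    exact (hg.moves i).trans (Q_ge hx _ i)
  · intro g hgG i hi he
    rw [PP_succ' hx] at he
    have hnf : ¬ Free s (rd R (Lam s x j (idx s x j g).1 ((idx s x j g).2 + 1))).1 := by
      intro hf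
      exact hf i (ww s x j g) hi he
    rcases idx_succ_or (j := j) hx g with ⟨h1, h2⟩ | ⟨h1, h2⟩
    · have h3 : g + 1 ≠ gs s x j (Nr * M0) := by
        intro h4
        rw [h4, hG] at h2
        have := congrArg Prod.snd h2
        simp at this
      refine ⟨by omega, ?_, ?_⟩
      · unfold ww
        rw [h2, Lam_succ]
        simp only
        have h5 := mover_eq (s := s)
          (y := rd R (Lam s x j (idx s x j g).1 ((idx s x j g).2 + 1)))
          (semi_Lam hx _ _) (i := i) hi he
        exact h5
      · unfold th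
        rw [h2]
        simp only
        omega
    · exfalso
      apply hnf
      rw [h1, rd_Lam]
      exact (ret_spec s (y := (Xs s x j (idx s x j g).1, j (idx s x j g).1))
        (Xs_free s hx j _)).2.1
  · intro g g' hgg hgG hw hd
    have hgG' : g < gs s x j (Nr * M0) := by omega
    have hlex := idx_lex (j := j) hx hgg
    rcases Nat.lt_trichotomy ((idx s x j g).1 / M0) ((idx s x j g').1 / M0) with h1 | h1 | h1
    · have := hord1 g g' hgg hgG h1; omega
    · -- same round
      have hadj : Adj A (Xs s x j ((idx s x j g').1 / M0 * M0)) (ww s x j g)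
          (ww s x j g') := by
        unfold Adj
        intro hdis
        apply hd
        have h3 := htouch g hgG'
        have h4 := htouch g' hgG
        rw [h1] at h3
        exact Disjoint.mono h3 h4 hdis
      have hm1 := hwmem g hgG'
      have hm2 := hwmem g' hgG
      rw [h1] at hm1
      have hc : j (idx s x j g).1 ∈ comp A (Xs s x j ((idx s x j g').1 / M0 * M0))
          (j (idx s x j g').1) := by
        have h3 := mem_comp_of_adj hm2 hadj.symm
        exact mem_comp_trans h3 (mem_comp_symm hm1)
      rcases hlex with h3 | ⟨h3, h4⟩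
      · have := hord2 g g' hgg hgG h1 h3 hc; omega
      · unfold th
        rw [h3]
        omega
    · exfalso
      have h3 : (idx s x j g).1 ≤ (idx s x j g').1 := by omega
      have := Nat.div_le_div_right (c := M0) h3
      omega
  · intro g g' hgg hgG hw
    have hgG' : g < gs s x j (Nr * M0) := by omega
    have hlex := idx_lex (j := j) hx hgg
    rcases Nat.lt_trichotomy ((idx s x j g).1 / M0) ((idx s x j g').1 / M0) with h1 | h1 | h1
    · exact hord1 g g' hgg hgG h1
    · have hm1 := hwmem g hgG'
      have hm2 := hwmem g' hgG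
      rw [h1, hw] at hm1
      have hc : j (idx s x j g).1 ∈ comp A (Xs s x j ((idx s x j g').1 / M0 * M0))
          (j (idx s x j g').1) := mem_comp_trans hm2 (mem_comp_symm hm1)
      rcases hlex with h3 | ⟨h3, h4⟩
      · exact hord2 g g' hgg hgG h1 h3 hc
      · -- same chain
        have h5 : (idx s x j g).2 + 1 ≠ (idx s x j g').2 := by
          intro h6
          have hlt' := idx_lt (j := j) hx g'
          have hnf := not_free_Lam (s := s) (x := x) (j := j) (a := (idx s x j g').1)
            (n := (idx s x j g').2) hx (by omega) hlt'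
          have h7 := (mover_of_not_free (semi_Lam hx _ _) hnf).1
          apply h7
          have h8 : ww s x j g' = mover s (rd R (Lam s x j (idx s x j g').1
            (idx s x j g').2)) := by
            unfold ww; rw [Lam_succ]; rfl
          rw [← h8, ← hw]
          unfold ww
          rw [h3, h6]
          rfl
        unfold th
        rw [h3]
        omega
    · exfalso
      have h3 : (idx s x j g).1 ≤ (idx s x j g').1 := by omega
      have := Nat.div_le_div_right (c := M0) h3
      omega
  · intro g hgG
    have h1 := hlen g hgG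
    have h2 := hhit g hgG
    have h3 := (hinfo g hgG).1
    have h4 : ((idx s x j g).1 / M0 * h +
      hits s A M0 x j ((idx s x j g).1 / M0) (idx s x j g).1 (j (idx s x j g).1) + 1)
        * m ^ 2 ≤ Nr * h * m ^ 2 := by
      apply Nat.mul_le_mul_right
      have h5 : ((idx s x j g).1 / M0 + 1) * h ≤ Nr * h := Nat.mul_le_mul_right _ h3
      rw [Nat.add_mul, Nat.one_mul] at h5
      omega
    unfold th
    rw [Nat.add_mul _ 1, Nat.one_mul] at h4
    omega

end Pool.Agent.H72R
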